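import Mathlib

/-!
# Leonard pairs and the equitable presentation of `U_q(sl_2)`: definitions
-/

open Module

namespace Pool.Agent.Lib.MP_32472a_al

universe u

section Leonard

variable {K : Type u} [Field K]

/-- A square matrix is irreducible tridiagonal: entries off the three central diagonals vanish,
and all entries on the sub- and superdiagonal are nonzero. -/
def IrredTridiag {n : ℕ} (M : Matrix (Fin n) (Fin n) K) : Prop :=
  (∀ i j : Fin n, (i : ℕ) + 1 < j → M i j = 0 ∧ M j i = 0) ∧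
  (∀ i j : Fin n, (i : ℕ) + 1 = j → M i j ≠ 0 ∧ M j i ≠ 0)

variable {V : Type u} [AddCommGroup V] [Module K V]

/-- `A, A'` is a Leonard pair on `V`, where `dim V = d + 1`. -/
def IsLeonardPair (d : ℕ) (A A' : End K V) : Prop :=
  (∃ b : Basis (Fin (d + 1)) K V, IrredTridiag (LinearMap.toMatrix b b A) ∧
    (LinearMap.toMatrix b b A').IsDiag) ∧
  (∃ b : Basis (Fin (d + 1)) K V, IrredTridiag (LinearMap.toMatrix b b A') ∧
    (LinearMap.toMatrix b b A).IsDiag)

/-- `θ 0, …, θ d` is an ordering of the eigenvalues of `A` such that `A'` is irreducible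
tridiagonal in a basis of `A`-eigenvectors listed in that order. -/
def IsStdOrdering (d : ℕ) (A A' : End K V) (θ : Fin (d + 1) → K) : Prop :=
  ∃ b : Basis (Fin (d + 1)) K V, (∀ i, A (b i) = θ i • b i) ∧
    IrredTridiag (LinearMap.toMatrix b b A')

/-- the recurrence `θ_{i-2} - θ_{i+1} = (β + 1)(θ_{i-1} - θ_i)` for `2 ≤ i ≤ d - 1`
(with `i` shifted by `2`) -/
def BetaRec (d : ℕ) (β : K) (θ : Fin (d + 1) → K) : Prop :=
  ∀ (i : ℕ) (h : i + 3 < d + 1),
    θ ⟨i, by omega⟩ - θ ⟨i + 3, h⟩ = (β + 1) * (θ ⟨i + 1, by omega⟩ - θ ⟨i + 2, by omega⟩)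

/-- `β` is the scalar attached to the pair: the eigenvalues of `A` and of `A'`, listed in
standard order, satisfy the recurrence with this `β`. -/
def HasBeta (d : ℕ) (A A' : End K V) (β : K) : Prop :=
  (∃ θ, IsStdOrdering d A A' θ ∧ BetaRec d β θ) ∧ (∃ θ, IsStdOrdering d A' A θ ∧ BetaRec d β θ)

end Leonard

section Uq

variable {K : Type u} [Field K]

/-- names of the generators of `U_q(sl_2)` in the equitable presentation -/
inductive Gen : Type
  | X | Xinv | Y | Z

open FreeAlgebra in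
/-- the defining relations of the equitable presentation -/
inductive Rel (q : K) : FreeAlgebra K Gen → FreeAlgebra K Gen → Prop
  | x_xinv : Rel q (ι K Gen.X * ι K Gen.Xinv) 1
  | xinv_x : Rel q (ι K Gen.Xinv * ι K Gen.X) 1
  | xy : Rel q ((q - q⁻¹)⁻¹ • (q • (ι K Gen.X * ι K Gen.Y) - q⁻¹ • (ι K Gen.Y * ι K Gen.X))) 1
  | yz : Rel q ((q - q⁻¹)⁻¹ • (q • (ι K Gen.Y * ι K Gen.Z) - q⁻¹ • (ι K Gen.Z * ι K Gen.Y))) 1
  | zx : Rel q ((q - q⁻¹)⁻¹ • (q • (ι K Gen.Z * ι K Gen.X) - q⁻¹ • (ι K Gen.X * ι K Gen.Z))) 1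

/-- `U_q(sl_2)` by the equitable presentation -/
abbrev Uq (q : K) : Type u := RingQuot (Rel q)

/-- the generators as elements of `U_q(sl_2)` -/
def gen (q : K) (g : Gen) : Uq q := RingQuot.mkAlgHom K (Rel q) (FreeAlgebra.ι K g)

variable {V : Type u} [AddCommGroup V] [Module K V]

/-- a module structure is irreducible if the only submodules are `0` and `V` -/
def IsIrred {q : K} (ρ : Uq q →ₐ[K] End K V) : Prop :=
  ∀ W : Submodule K V, (∀ a : Uq q, ∀ w ∈ W, ρ a w ∈ W) → W = ⊥ ∨ W = ⊤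

/-- there is an irreducible `U_q(sl_2)`-module structure on `V` with `A` in the span of
`I, X, Y, XY` and `A'` in the span of `I, Y, Z, YZ` -/
def HasUqStructure (q : K) (A A' : End K V) : Prop :=
  ∃ ρ : Uq q →ₐ[K] End K V, IsIrred ρ ∧
    A ∈ Submodule.span K {1, ρ (gen q .X), ρ (gen q .Y), ρ (gen q .X * gen q .Y)} ∧
    A' ∈ Submodule.span K {1, ρ (gen q .Y), ρ (gen q .Z), ρ (gen q .Y * gen q .Z)}

end Uq

/-- The assertion of the question for the field `K`, the scalar `q` and Leonard pairs on vector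
spaces of dimension `d + 1`. -/
def Q1Holds (K : Type u) [Field K] (q : K) (d : ℕ) : Prop :=
  ∀ (V : Type u) [AddCommGroup V] [Module K V] (A A' : End K V),
    IsLeonardPair d A A' → HasBeta d A A' (q ^ 2 + (q⁻¹) ^ 2) → HasUqStructure q A A'

end Pool.Agent.Lib.MP_32472a_al
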