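import Pool.Agent.Lib.MP_32472a_al.Defs

open Module

namespace Pool.Agent.Lib.MP_32472a_al

universe u

variable {K : Type u} [Field K] {V : Type u} [AddCommGroup V] [Module K V]

theorem repr_map_apply {n : ℕ} (e : Basis (Fin n) K V) (A : End K V) (x : V) (j : Fin n) :
    e.repr (A x) j = ∑ k, e.repr x k * e.repr (A (e k)) j := by
  have h := congrArg (fun y => e.repr (A y) j) (e.sum_repr x)
  simp only [map_sum, map_smul, Finsupp.finsetSum_apply, Finsupp.smul_apply, smul_eq_mul] at h
  exact h.symm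

/-- Two flags attached to `(A, A')`. -/
structure Flagged (d : ℕ) (A A' : End K V) (θ θ' : ℕ → K) (w e : Basis (Fin (d + 1)) K V) :
    Prop where
  hw : ∀ i, A (w i) = θ i • w i
  tri : ∀ i j : Fin (d + 1), (i : ℕ) + 1 < j → w.repr (A' (w j)) i = 0
  he1 : ∀ n k : Fin (d + 1), (n : ℕ) + 1 < k → e.repr (A (e n)) k = 0
  he2 : ∀ n k : Fin (d + 1), (n : ℕ) + 1 = k → e.repr (A (e n)) k ≠ 0
  he3 : ∀ n k : Fin (d + 1), n < k → e.repr (A' (e n)) k = 0
  he4 : ∀ n, e.repr (A' (e n)) n = θ' n

namespace Flagged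

variable {d : ℕ} {A A' : End K V} {θ θ' : ℕ → K} {w e : Basis (Fin (d + 1)) K V}

/-- span of the first `m` vectors of `e` -/
def F (e : Basis (Fin (d + 1)) K V) (m : ℕ) (x : V) : Prop :=
  ∀ k : Fin (d + 1), m ≤ k → e.repr x k = 0

/-- span of the vectors of `w` of index at least `m` -/
def G (w : Basis (Fin (d + 1)) K V) (m : ℕ) (x : V) : Prop :=
  ∀ k : Fin (d + 1), (k : ℕ) < m → w.repr x k = 0

theorem F_A (h : Flagged d A A' θ θ' w e) {m : ℕ} {x : V} (hx : F e m x) : F e (m + 1) (A x) := by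
  intro j hj
  rw [repr_map_apply]
  apply Finset.sum_eq_zero
  intro k _
  by_cases hk : m ≤ k
  · rw [hx k hk, zero_mul]
  · rw [h.he1 k j (by omega), mul_zero]

theorem F_mono {m n : ℕ} (hmn : m ≤ n) {x : V} (hx : F e m x) : F e n x :=
  fun k hk => hx k (hmn.trans hk)

theorem F_sub {m : ℕ} {x y : V} (hx : F e m x) (hy : F e m y) : F e m (x - y) := by
  intro k hk
  rw [map_sub, Finsupp.sub_apply, hx k hk, hy k hk, sub_zero]

theorem F_smul {m : ℕ} {x : V} (c : K) (hx : F e m x) : F e m (c • x) := by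
  intro k hk
  rw [map_smul, Finsupp.smul_apply, hx k hk, smul_zero]

theorem G_sub {m : ℕ} {x y : V} (hx : G w m x) (hy : G w m y) : G w m (x - y) := by
  intro k hk
  rw [map_sub, Finsupp.sub_apply, hx k hk, hy k hk, sub_zero]

theorem G_smul {m : ℕ} {x : V} (c : K) (hx : G w m x) : G w m (c • x) := by
  intro k hk
  rw [map_smul, Finsupp.smul_apply, hx k hk, smul_zero]

theorem G_mono {m n : ℕ} (hmn : m ≤ n) {x : V} (hx : G w n x) : G w m x :=
  fun k hk => hx k (lt_of_lt_of_le hk hmn)

theorem F_A' (h : Flagged d A A' θ θ' w e) {m : ℕ} {x : V} (hx : F e (m + 1) x) :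
    F e m (A' x - θ' m • x) := by
  intro j hj
  rw [map_sub, Finsupp.sub_apply, map_smul, Finsupp.smul_apply, repr_map_apply, smul_eq_mul]
  by_cases hjm : (j : ℕ) = m
  · have : ∑ k, e.repr x k * e.repr (A' (e k)) j = e.repr x j * e.repr (A' (e j)) j := by
      apply Finset.sum_eq_single j
      · intro k _ hkj
        rcases lt_or_gt_of_ne hkj with hlt | hgt
        · rw [h.he3 k j hlt, mul_zero]
        · rw [hx k (by
            have : (j : ℕ) < k := hgt
            omega), zero_mul]
      · intro hj; exact absurd (Finset.mem_univ _) hj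
    rw [this, h.he4, ← hjm]; ring
  · have hj' : m + 1 ≤ j := by omega
    rw [hx j hj', mul_zero, sub_zero]
    apply Finset.sum_eq_zero
    intro k _
    by_cases hk : m + 1 ≤ k
    · rw [hx k hk, zero_mul]
    · rw [h.he3 k j (by
        show (k : ℕ) < j
        omega), mul_zero]

theorem G_A (h : Flagged d A A' θ θ' w e) {m : ℕ} {x : V} (hx : G w m x) :
    G w (m + 1) (A x - θ m • x) := by
  intro k hk
  have hwk : w.repr (A x) k = θ k * w.repr x k := by
    rw [repr_map_apply]
    rw [Finset.sum_eq_single k]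
    · rw [h.hw]; simp [mul_comm]
    · intro j _ hjk
      rw [h.hw]; simp [hjk]
    · intro hj; exact absurd (Finset.mem_univ _) hj
  rw [map_sub, Finsupp.sub_apply, map_smul, Finsupp.smul_apply, hwk, smul_eq_mul]
  by_cases hkm : (k : ℕ) = m
  · rw [hkm, sub_self]
  · rw [hx k (by omega)]; ring

theorem G_A' (h : Flagged d A A' θ θ' w e) {m : ℕ} {x : V} (hx : G w (m + 1) x) :
    G w m (A' x) := by
  intro k hk
  rw [repr_map_apply]
  apply Finset.sum_eq_zero
  intro j _
  by_cases hj : (j : ℕ) < m + 1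
  · rw [hx j hj, zero_mul]
  · rw [h.tri k j (by omega), mul_zero]

theorem eq_zero_of_G {x : V} (hx : G w (d + 1) x) : x = 0 := by
  apply w.repr.injective
  ext k
  rw [map_zero]
  exact hx k k.2

theorem eq_zero_of_F {x : V} (hx : F e 0 x) : x = 0 := by
  apply e.repr.injective
  ext k
  rw [map_zero]
  exact hx k (Nat.zero_le _)

/-- an element of `F m`, `m ≤ d`, which is an eigenvector of `A`, is zero -/
theorem eq_zero_of_eigen (h : Flagged d A A' θ θ' w e) {m : ℕ} (hm : m ≤ d) {x : V} {c : K}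
    (hx : F e m x) (hA : A x = c • x) : x = 0 := by
  -- descending induction
  have key : ∀ j, j ≤ m → F e (m - j) x := by
    intro j
    induction j with
    | zero => intro _; simpa using hx
    | succ j ih =>
      intro hj
      have ihx := ih (by omega)
      intro k hk
      by_cases hk' : m - j ≤ k
      · exact ihx k hk'
      · have hkk : (k : ℕ) = m - (j + 1) := by omega
        have hlt : (k : ℕ) + 1 < d + 1 := by omega
        set k' : Fin (d + 1) := ⟨k + 1, hlt⟩ with hk'def
        have h1 : e.repr (A x) k' = e.repr x k * e.repr (A (e k)) k' := by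
          rw [repr_map_apply]
          apply Finset.sum_eq_single k
          · intro i _ hik
            by_cases hi : m - j ≤ i
            · rw [ihx i hi, zero_mul]
            · rw [h.he1 i k' (by
                have : (i : ℕ) ≠ k := fun hh => hik (Fin.ext hh)
                simp only [hk'def]
                omega), mul_zero]
          · intro hi; exact absurd (Finset.mem_univ _) hi
        have h2 : e.repr (A x) k' = 0 := by
          rw [hA, map_smul, Finsupp.smul_apply, ihx k' (by simp only [hk'def]; omega), smul_zero]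
        rw [h2] at h1
        exact (mul_eq_zero.mp h1.symm).resolve_right (h.he2 k k' rfl)
  exact eq_zero_of_F (by simpa using key m le_rfl)

theorem inter (h : Flagged d A A' θ θ' w e) : ∀ j, j ≤ d + 1 → ∀ x : V,
    F e (d + 1 - j) x → G w (d + 1 - j) x → x = 0 := by
  intro j
  induction j with
  | zero => intro _ x _ hG; exact eq_zero_of_G (by simpa using hG)
  | succ j ih =>
    intro hj x hF hG
    have h1 := h.F_A hF
    have h2 := h.G_A hG
    have e1 : d + 1 - (j + 1) + 1 = d + 1 - j := by omega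
    rw [e1] at h1 h2
    have h3 : A x - θ (d + 1 - (j + 1)) • x = 0 :=
      ih (by omega) _ (F_sub h1 (F_smul _ (F_mono (by omega) hF))) h2
    exact h.eq_zero_of_eigen (by omega) hF (sub_eq_zero.mp h3)

theorem inter' (h : Flagged d A A' θ θ' w e) {m : ℕ} (hm : m ≤ d + 1) {x : V}
    (hF : F e m x) (hG : G w m x) : x = 0 := by
  have := h.inter (d + 1 - m) (by omega) x
  have e1 : d + 1 - (d + 1 - m) = m := by omega
  rw [e1] at this
  exact this hF hG

/-- the split basis -/
def u (A : End K V) (θ : ℕ → K) (u0 : V) : ℕ → V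
  | 0 => u0
  | i + 1 => A (u A θ u0 i) - θ i • u A θ u0 i

theorem u_F (h : Flagged d A A' θ θ' w e) (i : ℕ) : F e (i + 1) (u A θ (e 0) i) := by
  induction i with
  | zero =>
    intro k hk
    have : (0 : Fin (d + 1)) ≠ k := by
      intro hh; rw [← hh] at hk; simp at hk
    simp [u, this]
  | succ i ih => exact F_sub (h.F_A ih) (F_smul _ (F_mono (by omega) ih))

theorem u_G (h : Flagged d A A' θ θ' w e) (i : ℕ) : G w i (u A θ (e 0) i) := by
  induction i with
  | zero => intro k hk; omega
  | succ i ih => exact h.G_A ih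

theorem u_top (h : Flagged d A A' θ θ' w e) (i : ℕ) (hi : i < d + 1) :
    e.repr (u A θ (e 0) i) ⟨i, hi⟩ ≠ 0 := by
  induction i with
  | zero =>
    have : (⟨0, hi⟩ : Fin (d + 1)) = 0 := rfl
    simp [u, this]
  | succ i ih =>
    have ih' := ih (by omega)
    have h1 : e.repr (u A θ (e 0) (i + 1)) ⟨i + 1, hi⟩ =
        e.repr (u A θ (e 0) i) ⟨i, by omega⟩ * e.repr (A (e ⟨i, by omega⟩)) ⟨i + 1, hi⟩ := by
      show e.repr (A (u A θ (e 0) i) - θ i • u A θ (e 0) i) ⟨i + 1, hi⟩ = _
      rw [map_sub, Finsupp.sub_apply, map_smul, Finsupp.smul_apply, h.u_F i ⟨i + 1, hi⟩ le_rfl,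
        smul_zero, sub_zero, repr_map_apply]
      apply Finset.sum_eq_single (⟨i, by omega⟩ : Fin (d + 1))
      · intro k _ hki
        have hne : (k : ℕ) ≠ i := fun hh => hki (Fin.ext hh)
        by_cases hk : i + 1 ≤ k
        · rw [h.u_F i k hk, zero_mul]
        · rw [h.he1 k ⟨i + 1, hi⟩ (by simp only; omega), mul_zero]
      · intro hk; exact absurd (Finset.mem_univ _) hk
    rw [h1]
    exact mul_ne_zero ih' (h.he2 _ _ rfl)

theorem u_eq_zero (h : Flagged d A A' θ θ' w e) (i : ℕ) (hi : d < i) : u A θ (e 0) i = 0 := by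
  induction i with
  | zero => omega
  | succ i ih =>
    by_cases hid : d < i
    · show A (u A θ (e 0) i) - θ i • u A θ (e 0) i = 0
      rw [ih hid]; simp
    · have : i = d := by omega
      subst this
      exact eq_zero_of_G (h.u_G (i + 1))

theorem line (h : Flagged d A A' θ θ' w e) {i : ℕ} (hi : i < d + 1) {x : V}
    (hF : F e (i + 1) x) (hG : G w i x) : ∃ c : K, x = c • u A θ (e 0) i := by
  refine ⟨e.repr x ⟨i, hi⟩ / e.repr (u A θ (e 0) i) ⟨i, hi⟩, ?_⟩
  rw [← sub_eq_zero]
  apply h.inter' (m := i) (by omega)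
  · intro k hk
    by_cases hki : (k : ℕ) = i
    · have hk' : k = ⟨i, hi⟩ := Fin.ext hki
      rw [hk', map_sub, Finsupp.sub_apply, map_smul, Finsupp.smul_apply, smul_eq_mul,
        div_mul_cancel₀ _ (h.u_top i hi), sub_self]
    · rw [map_sub, Finsupp.sub_apply, map_smul, Finsupp.smul_apply, hF k (by omega),
        h.u_F i k (by omega), smul_zero, sub_zero]
  · exact G_sub hG (G_smul _ (h.u_G i))

theorem exists_phi (h : Flagged d A A' θ θ' w e) (i : ℕ) : ∃ c : K,
    A' (u A θ (e 0) (i + 1)) = θ' (i + 1) • u A θ (e 0) (i + 1) + c • u A θ (e 0) i := by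
  by_cases hi : i + 1 < d + 1
  · have h1 : F e (i + 1) (A' (u A θ (e 0) (i + 1)) - θ' (i + 1) • u A θ (e 0) (i + 1)) :=
      h.F_A' (h.u_F (i + 1))
    have h2 : G w i (A' (u A θ (e 0) (i + 1)) - θ' (i + 1) • u A θ (e 0) (i + 1)) :=
      G_sub (h.G_A' (h.u_G (i + 1))) (G_smul _ (G_mono (by omega) (h.u_G (i + 1))))
    obtain ⟨c, hc⟩ := h.line (by omega) h1 h2
    exact ⟨c, by rw [← hc]; abel⟩
  · exact ⟨0, by rw [h.u_eq_zero (i + 1) (by omega)]; simp⟩

theorem A'_u_zero (h : Flagged d A A' θ θ' w e) :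
    A' (u A θ (e 0) 0) = θ' 0 • u A θ (e 0) 0 := by
  have h1 : F e 0 (A' (u A θ (e 0) 0) - θ' 0 • u A θ (e 0) 0) := h.F_A' (h.u_F 0)
  exact sub_eq_zero.mp (eq_zero_of_F h1)

theorem u_basis (h : Flagged d A A' θ θ' w e) :
    LinearIndependent K (fun i : Fin (d + 1) => u A θ (e 0) i) ∧
      Submodule.span K (Set.range (fun i : Fin (d + 1) => u A θ (e 0) i)) = ⊤ := by
  rw [Module.Basis.is_basis_iff_det e, Basis.det_apply]
  have hT : (e.toMatrix (fun i : Fin (d + 1) => u A θ (e 0) i)).BlockTriangular id := by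
    intro i j hij
    exact h.u_F j i hij
  rw [Matrix.det_of_upperTriangular hT]
  rw [isUnit_iff_ne_zero, Finset.prod_ne_zero_iff]
  intro i _
  exact h.u_top i i.2

theorem G_add {m : ℕ} {x y : V} (hx : G w m x) (hy : G w m y) : G w m (x + y) := by
  intro k hk
  rw [map_add, Finsupp.add_apply, hx k hk, hy k hk, add_zero]

theorem G_zero {m : ℕ} : G w m (0 : V) := by
  intro k _
  rw [map_zero, Finsupp.zero_apply]

theorem G_sum {m : ℕ} {ι : Type*} (s : Finset ι) (f : ι → V) (hf : ∀ i ∈ s, G w m (f i)) :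
    G w m (∑ i ∈ s, f i) := by
  classical
  induction s using Finset.induction_on with
  | empty => simpa using (G_zero : G w m (0 : V))
  | insert a s ha ih =>
    rw [Finset.sum_insert ha]
    exact G_add (hf a (Finset.mem_insert_self _ _))
      (ih fun i hi => hf i (Finset.mem_insert_of_mem hi))

theorem F_add {m : ℕ} {x y : V} (hx : F e m x) (hy : F e m y) : F e m (x + y) := by
  intro k hk
  rw [map_add, Finsupp.add_apply, hx k hk, hy k hk, add_zero]

theorem F_zero {m : ℕ} : F e m (0 : V) := by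
  intro k _
  rw [map_zero, Finsupp.zero_apply]

theorem F_sum {m : ℕ} {ι : Type*} (s : Finset ι) (f : ι → V) (hf : ∀ i ∈ s, F e m (f i)) :
    F e m (∑ i ∈ s, f i) := by
  classical
  induction s using Finset.induction_on with
  | empty => simpa using (F_zero : F e m (0 : V))
  | insert a s ha ih =>
    rw [Finset.sum_insert ha]
    exact F_add (hf a (Finset.mem_insert_self _ _))
      (ih fun i hi => hf i (Finset.mem_insert_of_mem hi))

/-- The split basis as a basis. -/
noncomputable def U (h : Flagged d A A' θ θ' w e) : Basis (Fin (d + 1)) K V :=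
  Basis.mk (h.u_basis).1 (h.u_basis).2.ge

theorem U_apply (h : Flagged d A A' θ θ' w e) (i : Fin (d + 1)) : h.U i = u A θ (e 0) i := by
  rw [U, Basis.mk_apply]

theorem u_ne_zero (h : Flagged d A A' θ θ' w e) {i : ℕ} (hi : i < d + 1) :
    u A θ (e 0) i ≠ 0 := by
  have := h.U.ne_zero ⟨i, hi⟩
  rwa [h.U_apply] at this

theorem phi_ne_zero (h : Flagged d A A' θ θ' w e) {i : ℕ} (hi : i + 1 < d + 1) {c : K}
    (hc : A' (u A θ (e 0) (i + 1)) = θ' (i + 1) • u A θ (e 0) (i + 1) + c • u A θ (e 0) i)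
    (hne : w.repr (A' (w ⟨i + 1, hi⟩)) ⟨i, by omega⟩ ≠ 0) : c ≠ 0 := by
  intro hc0
  apply hne
  rw [hc0, zero_smul, add_zero] at hc
  set x := w ⟨i + 1, hi⟩ with hx
  have hxG : G w (i + 1) x := by
    intro k hk
    have : (⟨i + 1, hi⟩ : Fin (d + 1)) ≠ k := by
      intro hh; rw [← hh] at hk; simp at hk
    rw [hx, Basis.repr_self, Finsupp.single_apply, if_neg this]
  -- expand `x` in the split basis
  have hexp := h.U.sum_repr x
  have hsplit : x = (∑ k ∈ Finset.univ.filter (fun k : Fin (d + 1) => (k : ℕ) < i + 1),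
        h.U.repr x k • h.U k) +
      ∑ k ∈ Finset.univ.filter (fun k : Fin (d + 1) => ¬ (k : ℕ) < i + 1),
        h.U.repr x k • h.U k := by
    rw [Finset.sum_filter_add_sum_filter_not]; exact hexp.symm
  set y := ∑ k ∈ Finset.univ.filter (fun k : Fin (d + 1) => (k : ℕ) < i + 1),
        h.U.repr x k • h.U k with hy
  set z := ∑ k ∈ Finset.univ.filter (fun k : Fin (d + 1) => ¬ (k : ℕ) < i + 1),
        h.U.repr x k • h.U k with hz
  have hzG : G w (i + 1) z := by
    apply G_sum
    intro k hk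
    rw [Finset.mem_filter] at hk
    rw [h.U_apply]
    exact G_smul _ (G_mono (by omega) (h.u_G k))
  have hyF : F e (i + 1) y := by
    apply F_sum
    intro k hk
    rw [Finset.mem_filter] at hk
    rw [h.U_apply]
    exact F_smul _ (F_mono (by omega) (h.u_F k))
  have hyG : G w (i + 1) y := by
    have : y = x - z := by rw [hsplit]; abel
    rw [this]; exact G_sub hxG hzG
  have hy0 : y = 0 := h.inter' (by omega) hyF hyG
  rw [hy0, zero_add] at hsplit
  have hAz : G w (i + 1) (A' z) := by
    rw [hz, map_sum]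
    apply G_sum
    intro k hk
    rw [Finset.mem_filter] at hk
    rw [map_smul, h.U_apply]
    apply G_smul
    by_cases hki : (k : ℕ) = i + 1
    · rw [hki, hc]
      exact G_smul _ (h.u_G (i + 1))
    · exact G_mono (by omega) (h.G_A' (m := (k : ℕ) - 1) (by
        have : (k : ℕ) - 1 + 1 = k := by omega
        rw [this]; exact h.u_G k))
  rw [hsplit]
  exact hAz ⟨i, by omega⟩ (by simp)

theorem repr_ne_zero (h : Flagged d A A' θ θ' w e) {i : ℕ} (hi : i + 1 < d + 1) {c : K}
    (hc : A' (u A θ (e 0) (i + 1)) = θ' (i + 1) • u A θ (e 0) (i + 1) + c • u A θ (e 0) i)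
    (hne : c ≠ 0) : w.repr (A' (w ⟨i + 1, hi⟩)) ⟨i, by omega⟩ ≠ 0 := by
  intro h0
  have hG : ∀ x, G w (i + 1) x → G w (i + 1) (A' x) := by
    intro x hx k hk
    rw [repr_map_apply]
    apply Finset.sum_eq_zero
    intro j _
    by_cases hj : (j : ℕ) < i + 1
    · rw [hx j hj, zero_mul]
    · by_cases hj' : (j : ℕ) = i + 1
      · have hjj : j = ⟨i + 1, hi⟩ := Fin.ext hj'
        by_cases hk' : (k : ℕ) = i
        · have hkk : k = ⟨i, by omega⟩ := Fin.ext hk'
          rw [hjj, hkk, h0, mul_zero]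
        · rw [h.tri k j (by omega), mul_zero]
      · rw [h.tri k j (by omega), mul_zero]
  have h1 : G w (i + 1) (c • u A θ (e 0) i) := by
    have : c • u A θ (e 0) i = A' (u A θ (e 0) (i + 1)) - θ' (i + 1) • u A θ (e 0) (i + 1) := by
      rw [hc]; abel
    rw [this]
    exact G_sub (hG _ (h.u_G (i + 1))) (G_smul _ (h.u_G (i + 1)))
  have h2 : F e (i + 1) (c • u A θ (e 0) i) := F_smul _ (h.u_F i)
  have h3 := h.inter' (by omega) h2 h1
  rcases smul_eq_zero.mp h3 with h4 | h4
  · exact hne h4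
  · exact h.u_ne_zero (by omega) h4

end Flagged

end Pool.Agent.Lib.MP_32472a_al
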