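import Pool.Agent.Lib.MP_32472a_al.Defs
import Pool.Agent.Lib.MP_32472a_al.Flag

section

open Module

namespace Pool.Agent.Lib.MP_32472a_al

universe u

variable {K : Type u} [Field K] {V : Type u} [AddCommGroup V] [Module K V]

/-- `A² A' - β A A' A + A' A² - ρ A'` -/
def SS (β ρ : K) (A A' : End K V) : End K V :=
  A * A * A' - β • (A * A' * A) + A' * A * A - ρ • A'

/-- `v 0, v 1, …` is a family on which `A` acts lower bidiagonally and `A'` upper
bidiagonally -/
structure Bi (A A' : End K V) (v : ℕ → V) (θ s θ' t : ℕ → K) : Prop where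
  hA : ∀ i, A (v i) = θ i • v i + s i • v (i + 1)
  hA0 : A' (v 0) = θ' 0 • v 0
  hA' : ∀ i, A' (v (i + 1)) = θ' (i + 1) • v (i + 1) + t (i + 1) • v i

namespace Bi

variable {A A' : End K V} {v : ℕ → V} {θ s θ' t : ℕ → K} {β ρ : K}

theorem S_zero (h : Bi A A' v θ s θ' t) : SS β ρ A A' (v 0) =
    (θ' 0 * ((2 - β) * θ 0 ^ 2 - ρ) + s 0 * t 1 * (θ 0 + θ 1 - β * θ 0)) • v 0 +
    (s 0 * ((θ 0 + θ 1) * (θ' 0 + θ' 1) - β * (θ 0 * θ' 0 + θ 1 * θ' 1)
      - β * (s 0 * t 1) + s 1 * t 2)) • v 1 +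
    (s 0 * s 1 * (θ' 0 - β * θ' 1 + θ' 2)) • v 2 := by
  have h1 := h.hA' 0
  have h2 := h.hA' 1
  simp only [Nat.zero_add, Nat.reduceAdd] at h1 h2
  have g0 := h.hA 0
  have g1 := h.hA 1
  simp only [Nat.zero_add, Nat.reduceAdd] at g0 g1
  simp only [SS, LinearMap.sub_apply, LinearMap.add_apply, LinearMap.smul_apply,
    Module.End.mul_apply, g0, g1, h.hA0, h1, h2, map_add, map_smul]
  module

theorem S_succ (h : Bi A A' v θ s θ' t) (j : ℕ) : SS β ρ A A' (v (j + 1)) =
    (t (j + 1) * (θ (j + 1) ^ 2 - β * θ (j + 1) * θ j + θ j ^ 2 - ρ)) • v j +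
    (θ' (j + 1) * ((2 - β) * θ (j + 1) ^ 2 - ρ) + s j * t (j + 1) *
      (θ j + θ (j + 1) - β * θ (j + 1)) +
      s (j + 1) * t (j + 2) * (θ (j + 1) + θ (j + 2) - β * θ (j + 1))) • v (j + 1) +
    (s (j + 1) * ((θ (j + 1) + θ (j + 2)) * (θ' (j + 1) + θ' (j + 2))
      - β * (θ (j + 1) * θ' (j + 1) + θ (j + 2) * θ' (j + 2))
      + s j * t (j + 1) - β * (s (j + 1) * t (j + 2)) + s (j + 2) * t (j + 3))) • v (j + 2) +
    (s (j + 1) * s (j + 2) * (θ' (j + 1) - β * θ' (j + 2) + θ' (j + 3))) • v (j + 3) := by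
  have h1 := h.hA' j
  have h2 := h.hA' (j + 1)
  have h3 := h.hA' (j + 2)
  have g0 := h.hA j
  have g1 := h.hA (j + 1)
  have g2 := h.hA (j + 2)
  simp only [Nat.add_assoc, Nat.reduceAdd] at h1 h2 h3 g0 g1 g2
  simp only [SS, LinearMap.sub_apply, LinearMap.add_apply, LinearMap.smul_apply,
    Module.End.mul_apply, g0, g1, g2, h1, h2, h3, map_add, map_smul]
  module

end Bi

/-- a basis together with its extension by zero to all natural indices -/
structure NB (d : ℕ) (b : Basis (Fin (d + 1)) K V) (v : ℕ → V) : Prop where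
  hb : ∀ i : Fin (d + 1), b i = v i
  hz : ∀ i, d < i → v i = 0

/-- coordinates indexed by all natural numbers -/
noncomputable def cf {d : ℕ} (b : Basis (Fin (d + 1)) K V) (k : ℕ) : V →ₗ[K] K :=
  if h : k < d + 1 then b.coord ⟨k, h⟩ else 0

namespace NB

variable {d : ℕ} {b : Basis (Fin (d + 1)) K V} {v : ℕ → V}

theorem cf_v (h : NB d b v) (k l : ℕ) : cf b k (v l) = if k = l ∧ k < d + 1 then 1 else 0 := by
  unfold cf
  by_cases hk : k < d + 1
  · rw [dif_pos hk]
    by_cases hl : l < d + 1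
    · have : v l = b ⟨l, hl⟩ := (h.hb ⟨l, hl⟩).symm
      rw [this, Basis.coord_apply, Basis.repr_self, Finsupp.single_apply]
      by_cases hkl : k = l
      · subst hkl; simp [hk]
      · have : (⟨l, hl⟩ : Fin (d + 1)) ≠ ⟨k, hk⟩ := by
          intro hh; apply hkl; exact (congrArg Fin.val hh).symm
        simp [this, hkl]
    · rw [h.hz l (by omega), map_zero, if_neg (by omega)]
  · rw [dif_neg hk, if_neg (by omega)]; rfl

theorem ext {x y : V} (hxy : ∀ k < d + 1, cf b k x = cf b k y) : x = y := by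
  apply b.repr.injective
  ext k
  have := hxy k k.2
  unfold cf at this
  rw [dif_pos k.2] at this
  exact this

theorem end_ext (h : NB d b v) {f g : End K V} (hfg : ∀ k, k < d + 1 → f (v k) = g (v k)) :
    f = g := by
  apply b.ext
  intro i
  rw [h.hb]
  exact hfg i i.2

end NB

end Pool.Agent.Lib.MP_32472a_al
end

section

section

open Module

namespace Pool.Agent.Lib.MP_32472a_al

universe u

variable {K : Type u} [Field K]

/-- `U Q^{-i} + V Q^i` -/
def cl (Q U V : K) (i : ℕ) : K := U / Q ^ i + V * Q ^ i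

theorem cl_rec {Q : K} (hQ : Q ≠ 0) (U V : K) (i : ℕ) :
    cl Q U V i - (Q + Q⁻¹) * cl Q U V (i + 1) + cl Q U V (i + 2) = 0 := by
  unfold cl
  field_simp
  ring

theorem closed_form {Q : K} (hQ : Q ≠ 0) (hQ1 : ∀ n, 0 < n → Q ^ n ≠ 1) {d : ℕ}
    {θ : Fin (d + 1) → K} (hθ : BetaRec d (Q + Q⁻¹) θ) :
    ∃ η U V : K, (∀ i : Fin (d + 1), θ i = η + cl Q U V i) ∧ (d ≤ 1 → V = 0) ∧
      (d = 0 → U ≠ 0) := by
  have h1 : Q - 1 ≠ 0 := by
    have := hQ1 1 one_pos
    rw [pow_one] at this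
    exact sub_ne_zero.mpr this
  have h2 : Q ^ 2 - 1 ≠ 0 := sub_ne_zero.mpr (hQ1 2 two_pos)
  rcases Nat.eq_zero_or_pos d with hd | hd
  · subst hd
    refine ⟨θ 0 - 1, 1, 0, ?_, fun _ => rfl, fun _ => one_ne_zero⟩
    intro i
    have : i = 0 := Fin.ext (by omega)
    subst this
    simp [cl]
  by_cases hd1 : d = 1
  · subst hd1
    refine ⟨θ 0 - (θ 0 - θ 1) * Q / (Q - 1), (θ 0 - θ 1) * Q / (Q - 1), 0, ?_, fun _ => rfl,
      fun h => by omega⟩
    intro i
    fin_cases i
    · simp [cl]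
    · simp only [cl, Fin.mk_one, Fin.val_one, pow_one, zero_mul, add_zero]
      field_simp
      ring
  have hd2 : 2 < d + 1 := by omega
  set a := θ ⟨0, by omega⟩ with ha
  set b := θ ⟨1, by omega⟩ with hb
  set c := θ ⟨2, hd2⟩ with hc
  set m0 := (a - b) * Q / (Q - 1) with hm0
  set m1 := (b - c) * Q / (Q - 1) with hm1
  set V := (m0 - Q * m1) / (Q * (Q ^ 2 - 1)) with hV
  set U := m0 + V * Q with hU
  have key : ∀ i : ℕ, ∀ h : i < d + 1, θ ⟨i, h⟩ = (a - U - V) + cl Q U V i := by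
    intro i
    induction i using Nat.strong_induction_on with
    | _ i ih =>
      intro h
      match i, ih, h with
      | 0, _, h => simp only [cl, pow_zero]; rw [← ha]; ring
      | 1, _, h =>
        simp only [cl, pow_one]; rw [← hb]
        have : a - b = (1 - 1 / Q) * (U - V * Q) := by
          rw [hU, hm0]; field_simp; ring
        have e : b = a - (a - b) := by ring
        rw [e, this]; field_simp; ring
      | 2, _, h =>
        simp only [cl]; rw [← hc]
        have e1 : a - b = (1 - 1 / Q) * (U - V * Q) := by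
          rw [hU, hm0]; field_simp; ring
        have e2 : b - c = (1 - 1 / Q) * (U / Q - V * Q ^ 2) := by
          rw [hU, hV, hm1, hm0]; field_simp; ring
        have e : c = a - (a - b) - (b - c) := by ring
        rw [e, e1, e2]; field_simp; ring
      | i + 3, ih, h =>
        have r := hθ i h
        have i0 := ih i (by omega) (by omega)
        have i1 := ih (i + 1) (by omega) (by omega)
        have i2 := ih (i + 2) (by omega) (by omega)
        have e : θ ⟨i + 3, h⟩ = θ ⟨i, by omega⟩ - (Q + Q⁻¹ + 1) *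
            (θ ⟨i + 1, by omega⟩ - θ ⟨i + 2, by omega⟩) := by
          rw [← r]; ring
        rw [e, i0, i1, i2]
        have c0 := cl_rec hQ U V i
        have c1 := cl_rec hQ U V (i + 1)
        simp only [Nat.add_assoc, Nat.reduceAdd] at c0 c1
        linear_combination c0 - c1
  exact ⟨a - U - V, U, V, fun i => key i i.2, fun h => by omega, fun h => by omega⟩

end Pool.Agent.Lib.MP_32472a_al
end

section

open Module

namespace Pool.Agent.Lib.MP_32472a_al

universe u

variable {K : Type u} [Field K] {V : Type u} [AddCommGroup V] [Module K V]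

/-- the first split sequence in closed form -/
def ph (Q : K) (d : ℕ) (U W U' W' r : K) (i : ℕ) : K :=
  (1 - Q ^ i) * (Q ^ d * Q - Q ^ i) * (U * U' * Q + r * Q ^ i + W * W' * Q ^ d * (Q ^ i) ^ 2) /
    (Q ^ d * Q * (Q ^ i) ^ 2)

theorem ph_zero (Q : K) (d : ℕ) (U W U' W' r : K) : ph Q d U W U' W' r 0 = 0 := by
  simp [ph]

theorem ph_top (Q : K) (d : ℕ) (U W U' W' r : K) : ph Q d U W U' W' r (d + 1) = 0 := by
  simp [ph, pow_succ]

/-- `ω` in the Askey-Wilson relation -/
def om (Q : K) (d : ℕ) (U W U' W' r : K) : K :=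
  (2 - (Q + Q⁻¹)) * ((U + W * Q ^ d) * (U' + W' * Q ^ d) / Q ^ d - (1 + 1 / (Q ^ d * Q)) * r)

/-- the coefficient appearing in the Askey-Wilson relation -/
def Cc (Q U W U' W' : K) (φ : ℕ → K) (j : ℕ) : K :=
  φ j - (Q + Q⁻¹) * φ (j + 1) + φ (j + 2) +
    ((cl Q U W j + cl Q U W (j + 1)) * (cl Q U' W' j + cl Q U' W' (j + 1)) -
      (Q + Q⁻¹) * (cl Q U W j * cl Q U' W' j + cl Q U W (j + 1) * cl Q U' W' (j + 1)))

theorem Cc_ph {Q : K} (hQ : Q ≠ 0) (d : ℕ) (U W U' W' r : K) (j : ℕ) :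
    Cc Q U W U' W' (ph Q d U W U' W' r) j = om Q d U W U' W' r := by
  unfold Cc om ph cl
  have hD : Q ^ d ≠ 0 := pow_ne_zero _ hQ
  have hy : Q ^ j ≠ 0 := pow_ne_zero _ hQ
  simp only [pow_succ]
  generalize Q ^ d = D at *
  generalize Q ^ j = y at *
  field_simp
  ring

theorem phi_form {Q : K} (hQ : Q ≠ 0) (hQ1 : ∀ n, 0 < n → Q ^ n ≠ 1) {d : ℕ} (U W U' W' : K)
    (φ : ℕ → K) (h0 : φ 0 = 0) (hd : φ (d + 1) = 0)
    (hC : ∀ j, j + 1 ≤ d → Cc Q U W U' W' φ j = Cc Q U W U' W' φ 0) :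
    ∃ r, ∀ j, j ≤ d + 1 → φ j = ph Q d U W U' W' r j := by
  have h1 : Q - 1 ≠ 0 := by
    have := hQ1 1 one_pos
    rw [pow_one] at this
    exact sub_ne_zero.mpr this
  have h1' : 1 - Q ≠ 0 := by
    intro h; apply h1; linear_combination -h
  have h2 : Q ^ 2 - 1 ≠ 0 := sub_ne_zero.mpr (hQ1 2 two_pos)
  rcases Nat.eq_zero_or_pos d with hd0 | hd0
  · subst hd0
    refine ⟨0, fun j hj => ?_⟩
    rcases Nat.le_one_iff_eq_zero_or_eq_one.mp hj with rfl | rfl
    · rw [h0, ph_zero]
    · rw [zero_add] at hd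
      have := ph_top Q 0 U W U' W' 0
      rw [zero_add] at this
      rw [hd, this]
  have hDd : Q ^ d - 1 ≠ 0 := sub_ne_zero.mpr (hQ1 d hd0)
  have hD0 : Q ^ d ≠ 0 := pow_ne_zero _ hQ
  set r := φ 1 * Q ^ d * Q / ((1 - Q) * (Q ^ d - 1)) - U * U' - W * W' * Q ^ d * Q with hr
  have hψ1 : φ 1 = ph Q d U W U' W' r 1 := by
    unfold ph
    rw [hr, pow_one]
    field_simp
    ring
  set ψ : ℕ → K := fun j => φ j - ph Q d U W U' W' r j with hψ
  set κ := Cc Q U W U' W' φ 0 - om Q d U W U' W' r with hκ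
  have hrec : ∀ j, j + 1 ≤ d → ψ (j + 2) = (Q + Q⁻¹) * ψ (j + 1) - ψ j + κ := by
    intro j hj
    have e1 := hC j hj
    have e2 := Cc_ph hQ d U W U' W' r j
    rw [hκ, ← e1, ← e2]
    simp only [hψ, Cc]
    ring
  have key : ∀ j, j ≤ d + 1 →
      ψ j * ((Q ^ 2 - 1) * (Q - 1) * Q ^ j) = κ * Q * (Q ^ j - 1) * (Q ^ j - Q) := by
    intro j
    induction j using Nat.strong_induction_on with
    | _ j ih =>
      intro hj
      match j, ih, hj with
      | 0, _, _ => simp [hψ, h0, ph_zero]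
      | 1, _, _ => simp [hψ, ← hψ1]
      | j + 2, ih, hj =>
        have i0 := ih j (by omega) (by omega)
        have i1 := ih (j + 1) (by omega) (by omega)
        rw [hrec j (by omega)]
        have e1 : Q ^ (j + 1) = Q * Q ^ j := by ring
        have e2 : Q ^ (j + 2) = Q ^ 2 * Q ^ j := by ring
        rw [e1] at i1
        rw [e2]
        generalize Q ^ j = y at *
        have e3 : (Q + Q⁻¹) * Q = Q ^ 2 + 1 := by field_simp
        linear_combination (Q ^ 2 + 1) * i1 - Q ^ 2 * i0 +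
          Q * y * ψ (j + 1) * ((Q ^ 2 - 1) * (Q - 1)) * e3
  have hκ0 : κ = 0 := by
    have := key (d + 1) le_rfl
    have e : ψ (d + 1) = 0 := by simp only [hψ, hd, ph_top, sub_zero]
    rw [e, zero_mul] at this
    have e1 : Q ^ (d + 1) - 1 ≠ 0 := sub_ne_zero.mpr (hQ1 _ (by omega))
    have e2 : Q ^ (d + 1) - Q ≠ 0 := by
      have : Q ^ (d + 1) - Q = Q * (Q ^ d - 1) := by ring
      rw [this]; exact mul_ne_zero hQ hDd
    have := this.symm
    simpa [hQ, e1, e2] using this
  refine ⟨r, fun j hj => ?_⟩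
  have := key j hj
  rw [hκ0, zero_mul, zero_mul, zero_mul] at this
  have e3 : ψ j = 0 := by
    rcases mul_eq_zero.mp this with h | h
    · exact h
    · exact absurd h (mul_ne_zero (mul_ne_zero h2 h1) (pow_ne_zero _ hQ))
  exact sub_eq_zero.mp e3

end Pool.Agent.Lib.MP_32472a_al
end

section

open Module

namespace Pool.Agent.Lib.MP_32472a_al

universe u

variable {K : Type u} [Field K] {V : Type u} [AddCommGroup V] [Module K V]

/-- the scalar `ρ` of the pair -/
def rh (Q U W : K) : K := U * W * (4 - (Q + Q⁻¹) ^ 2)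

theorem P_adj {Q : K} (hQ : Q ≠ 0) (U W : K) (i : ℕ) :
    cl Q U W (i + 1) ^ 2 - (Q + Q⁻¹) * cl Q U W (i + 1) * cl Q U W i + cl Q U W i ^ 2
      - rh Q U W = 0 := by
  unfold cl rh
  have hy : Q ^ i ≠ 0 := pow_ne_zero _ hQ
  simp only [pow_succ]
  generalize Q ^ i = y at *
  field_simp
  ring

theorem repr_diag {n : ℕ} (w : Basis (Fin n) K V) {A : End K V} {θ : Fin n → K}
    (hw : ∀ i, A (w i) = θ i • w i) (x : V) (i : Fin n) :
    w.repr (A x) i = θ i * w.repr x i := by
  rw [repr_map_apply]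
  rw [Finset.sum_eq_single i]
  · rw [hw]; simp [mul_comm]
  · intro j _ hji
    rw [hw]; simp [hji]
  · intro hj; exact absurd (Finset.mem_univ _) hj

theorem repr_SS {n : ℕ} (w : Basis (Fin n) K V) {A A' : End K V} {θ : Fin n → K}
    (hw : ∀ i, A (w i) = θ i • w i) (β ρ : K) (i j : Fin n) :
    w.repr (SS β ρ A A' (w j)) i =
      (θ i ^ 2 - β * θ i * θ j + θ j ^ 2 - ρ) * w.repr (A' (w j)) i := by
  simp only [SS, LinearMap.sub_apply, LinearMap.add_apply, LinearMap.smul_apply,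
    Module.End.mul_apply, map_sub, map_add, map_smul, Finsupp.sub_apply, Finsupp.add_apply,
    Finsupp.smul_apply, repr_diag w hw, hw, smul_eq_mul]
  ring

theorem comm_of_tri {Q : K} (hQ : Q ≠ 0) {d : ℕ} (w : Basis (Fin (d + 1)) K V) {A A' : End K V}
    {U W : K} (hw : ∀ i : Fin (d + 1), A (w i) = cl Q U W i • w i)
    (h1 : ∀ i j : Fin (d + 1), (i : ℕ) + 1 < j → w.repr (A' (w j)) i = 0)
    (h2 : ∀ i j : Fin (d + 1), (i : ℕ) + 1 < j → w.repr (A' (w i)) j = 0) :
    A * SS (Q + Q⁻¹) (rh Q U W) A A' = SS (Q + Q⁻¹) (rh Q U W) A A' * A := by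
  apply w.ext
  intro j
  apply w.repr.injective
  ext i
  rw [Module.End.mul_apply, Module.End.mul_apply, repr_diag w (θ := fun i => cl Q U W i) hw,
    hw, map_smul, map_smul, Finsupp.smul_apply, smul_eq_mul,
    repr_SS w (θ := fun i => cl Q U W i) hw]
  rcases lt_trichotomy (i : ℕ) j with h | h | h
  · by_cases hij : (i : ℕ) + 1 < j
    · rw [h1 i j hij]; ring
    · have e : (j : ℕ) = i + 1 := by omega
      simp only [e]
      have := P_adj hQ U W i
      have e2 : cl Q U W ↑i ^ 2 - (Q + Q⁻¹) * cl Q U W ↑i * cl Q U W (↑i + 1) +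
        cl Q U W (↑i + 1) ^ 2 - rh Q U W = 0 := by linear_combination this
      rw [e2]; ring
  · simp only [h]
  · by_cases hij : (j : ℕ) + 1 < i
    · rw [h2 j i hij]; ring
    · have e : (i : ℕ) = j + 1 := by omega
      simp only [e]
      rw [P_adj hQ U W j]; ring

theorem Cc_const {Q : K} (hQ : Q ≠ 0) {d : ℕ} {b : Basis (Fin (d + 1)) K V} {v : ℕ → V}
    (hb : NB d b v) {A A' : End K V} {U W U' W' ρ : K} {φ : ℕ → K} (h0 : φ 0 = 0)
    (h : Bi A A' v (cl Q U W) (fun _ => 1) (cl Q U' W') φ)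
    (hc : A * SS (Q + Q⁻¹) ρ A A' = SS (Q + Q⁻¹) ρ A A' * A) :
    ∀ j, j + 1 ≤ d → Cc Q U W U' W' φ j = Cc Q U W U' W' φ 0 := by
  have hstep : ∀ j, j + 2 ≤ d → Cc Q U W U' W' φ (j + 1) = Cc Q U W U' W' φ j := by
    intro j hj
    have h3 := LinearMap.congr_fun hc (v j)
    rw [Module.End.mul_apply, Module.End.mul_apply] at h3
    match j, hj, h3 with
    | 0, hj, h3 =>
      have s0 := h.S_zero (β := Q + Q⁻¹) (ρ := ρ)
      have s1 := h.S_succ (β := Q + Q⁻¹) (ρ := ρ) 0
      have a0 := h.hA 0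
      have a1 := h.hA 1
      have a2 := h.hA 2
      simp only [Nat.zero_add, Nat.reduceAdd] at s0 s1 a0 a1 a2
      simp only [a0, map_add, map_smul, s0, s1, a1, a2] at h3
      have h4 := congrArg (cf b 2) h3
      simp only [map_add, map_smul, hb.cf_v, smul_eq_mul] at h4
      have e2 : 2 < d + 1 := by omega
      have c0 := cl_rec hQ U' W' 0
      have c1 := cl_rec hQ U' W' 1
      simp only [Nat.zero_add, Nat.reduceAdd] at c0 c1
      simp [e2, c0, c1] at h4
      simp only [Cc, h0, Nat.zero_add, Nat.reduceAdd]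
      linear_combination -h4
    | j + 1, hj, h3 =>
      have s0 := h.S_succ (β := Q + Q⁻¹) (ρ := ρ) j
      have s1 := h.S_succ (β := Q + Q⁻¹) (ρ := ρ) (j + 1)
      have a0 := h.hA j
      have a1 := h.hA (j + 1)
      have a2 := h.hA (j + 2)
      have a3 := h.hA (j + 3)
      simp only [Nat.add_assoc, Nat.reduceAdd] at s0 s1 a0 a1 a2 a3
      simp only [a1, map_add, map_smul, s0, s1, a0, a2, a3] at h3
      have h4 := congrArg (cf b (j + 3)) h3
      simp only [map_add, map_smul, hb.cf_v, smul_eq_mul] at h4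
      have e2 : j + 3 < d + 1 := by omega
      have c0 := cl_rec hQ U' W' (j + 1)
      have c1 := cl_rec hQ U' W' (j + 2)
      simp only [Nat.add_assoc, Nat.reduceAdd] at c0 c1
      simp [e2, c0, c1] at h4
      simp only [Cc, Nat.add_assoc, Nat.reduceAdd]
      linear_combination -h4
  intro j
  induction j with
  | zero => intro _; rfl
  | succ j ih => intro hj; rw [hstep j (by omega), ih (by omega)]

end Pool.Agent.Lib.MP_32472a_al
end

section

open Module

namespace Pool.Agent.Lib.MP_32472a_al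

universe u

variable {K : Type u} [Field K] {V : Type u} [AddCommGroup V] [Module K V]

/-- the pair is in split form with the given parameters -/
def Split (Q : K) (d : ℕ) (A A' : End K V) (U W U' W' r : K) (b : Basis (Fin (d + 1)) K V)
    (v : ℕ → V) : Prop :=
  NB d b v ∧ Bi A A' v (cl Q U W) (fun _ => 1) (cl Q U' W') (ph Q d U W U' W' r)

theorem split_of_flagged {Q : K} (hQ : Q ≠ 0) (hQ1 : ∀ n, 0 < n → Q ^ n ≠ 1) {d : ℕ}
    {A A' : End K V} {U W U' W' : K} {w e : Basis (Fin (d + 1)) K V}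
    (h : Flagged d A A' (cl Q U W) (cl Q U' W') w e)
    (h2 : ∀ i j : Fin (d + 1), (i : ℕ) + 1 < j → w.repr (A' (w i)) j = 0) :
    ∃ r, Split Q d A A' U W U' W' r h.U (Flagged.u A (cl Q U W) (e 0)) := by
  choose c hc using h.exists_phi
  set φ : ℕ → K := fun i => match i with
    | 0 => 0
    | i + 1 => if i < d then c i else 0 with hφ
  set v := Flagged.u A (cl Q U W) (e 0) with hv
  have hb : NB d h.U v := ⟨fun i => h.U_apply i, fun i hi => h.u_eq_zero i hi⟩
  have hbi : Bi A A' v (cl Q U W) (fun _ => 1) (cl Q U' W') φ := by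
    refine ⟨fun i => ?_, h.A'_u_zero, fun i => ?_⟩
    · have : v (i + 1) = A (v i) - cl Q U W i • v i := rfl
      rw [this, one_smul]; abel
    · rw [hc i]
      by_cases hi : i < d
      · simp [hφ, hi]
      · simp only [hφ, hi, if_false]
        have e1 : v (i + 1) = 0 := hb.hz _ (by omega)
        have := hc i
        rw [e1, map_zero, smul_zero, zero_add] at this
        rw [← this]; simp
  have hcomm := comm_of_tri hQ w (A' := A') h.hw h.tri h2
  have hC := Cc_const hQ hb (φ := φ) rfl hbi hcomm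
  obtain ⟨r, hr⟩ := phi_form hQ hQ1 U W U' W' φ rfl (by simp [hφ]) hC
  refine ⟨r, hb, hbi.hA, hbi.hA0, fun i => ?_⟩
  rw [hbi.hA' i]
  by_cases hi : i ≤ d
  · rw [hr (i + 1) (by omega)]
  · rw [hb.hz (i + 1) (by omega), hb.hz i (by omega)]; simp

end Pool.Agent.Lib.MP_32472a_al
end

section

open Module

namespace Pool.Agent.Lib.MP_32472a_al

universe u

variable {K : Type u} [Field K] {V : Type u} [AddCommGroup V] [Module K V]

/-- `c_j = Q⁻¹ (Q^j - 1) (Q^{j-1}/Q^d - 1)` -/
def cc (Q : K) (d : ℕ) (j : ℕ) : K := (Q ^ j - 1) * (Q ^ j / (Q ^ d * Q) - 1) / Q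

theorem ph_factor {Q : K} (hQ : Q ≠ 0) (d : ℕ) {U W U' W' r a3 b3 : K}
    (h1 : U * b3 + U' * a3 = r) (h2 : a3 * b3 = W * W' * Q ^ d * Q) (k : ℕ) :
    ph Q d U W U' W' r (k + 1) = cc Q d (k + 1) * (U / Q ^ k + a3) * (U' / Q ^ k + b3) := by
  have e : (U / Q ^ k + a3) * (U' / Q ^ k + b3) = U * U' / (Q ^ k) ^ 2 + r / Q ^ k +
      W * W' * Q ^ d * Q := by
    rw [← h2, ← h1]
    have hy : Q ^ k ≠ 0 := pow_ne_zero _ hQ
    field_simp
    ring
  rw [mul_assoc, e]
  unfold ph cc
  have hD : Q ^ d ≠ 0 := pow_ne_zero _ hQ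
  have hy : Q ^ k ≠ 0 := pow_ne_zero _ hQ
  simp only [pow_succ]
  generalize Q ^ d = D at *
  generalize Q ^ k = y at *
  field_simp
  ring

theorem cc_rec {Q : K} (hQ : Q ≠ 0) (d : ℕ) (k : ℕ) :
    cc Q d (k + 1) - Q * cc Q d k = (1 - Q⁻¹) * ((Q ^ k) ^ 2 / Q ^ d - 1) := by
  unfold cc
  have hD : Q ^ d ≠ 0 := pow_ne_zero _ hQ
  have hy : Q ^ k ≠ 0 := pow_ne_zero _ hQ
  simp only [pow_succ]
  generalize Q ^ d = D at *
  generalize Q ^ k = y at *
  field_simp
  ring

theorem cc_zero (Q : K) (d : ℕ) : cc Q d 0 = 0 := by simp [cc]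

theorem cc_top {Q : K} (hQ : Q ≠ 0) (d : ℕ) : cc Q d (d + 1) = 0 := by
  have hD : Q ^ d ≠ 0 := pow_ne_zero _ hQ
  simp [cc, pow_succ, div_self (mul_ne_zero hD hQ)]

theorem cc_ne_zero {Q : K} (hQ : Q ≠ 0) (hQ1 : ∀ n, 0 < n → Q ^ n ≠ 1) {d k : ℕ} (hk : k < d) :
    cc Q d (k + 1) ≠ 0 := by
  unfold cc
  have hD : Q ^ d * Q ≠ 0 := mul_ne_zero (pow_ne_zero _ hQ) hQ
  refine div_ne_zero (mul_ne_zero (sub_ne_zero.mpr (hQ1 _ (by omega))) ?_) hQ
  rw [sub_ne_zero, ne_eq, div_eq_one_iff_eq hD]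
  intro h
  obtain ⟨j, rfl⟩ := Nat.exists_eq_add_of_lt hk
  have : Q ^ (k + j + 1) * Q = Q ^ (k + 1) * Q ^ (j + 1) := by ring
  rw [this] at h
  have h3 : Q ^ (j + 1) = 1 := by
    have := mul_left_cancel₀ (pow_ne_zero (k + 1) hQ) (h.symm.trans (mul_one _).symm)
    exact this
  exact hQ1 (j + 1) (by omega) h3

/-- four operators satisfying the defining relations give a representation -/
noncomputable def mkRep (q : K) (X Xi Y Z : End K V) (h1 : X * Xi = 1) (h2 : Xi * X = 1)
    (h3 : (q - q⁻¹)⁻¹ • (q • (X * Y) - q⁻¹ • (Y * X)) = 1)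
    (h4 : (q - q⁻¹)⁻¹ • (q • (Y * Z) - q⁻¹ • (Z * Y)) = 1)
    (h5 : (q - q⁻¹)⁻¹ • (q • (Z * X) - q⁻¹ • (X * Z)) = 1) : Uq q →ₐ[K] End K V :=
  RingQuot.liftAlgHom K ⟨FreeAlgebra.lift K (fun g => match g with
    | Gen.X => X
    | Gen.Xinv => Xi
    | Gen.Y => Y
    | Gen.Z => Z), by
      intro x y hxy
      cases hxy <;> simp only [map_mul, map_sub, map_smul, map_one, FreeAlgebra.lift_ι_apply,
        h1, h2, h3, h4, h5]⟩

section
variable (q : K) (X Xi Y Z : End K V) (h1 : X * Xi = 1) (h2 : Xi * X = 1)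
    (h3 : (q - q⁻¹)⁻¹ • (q • (X * Y) - q⁻¹ • (Y * X)) = 1)
    (h4 : (q - q⁻¹)⁻¹ • (q • (Y * Z) - q⁻¹ • (Z * Y)) = 1)
    (h5 : (q - q⁻¹)⁻¹ • (q • (Z * X) - q⁻¹ • (X * Z)) = 1)

theorem mkRep_X : mkRep q X Xi Y Z h1 h2 h3 h4 h5 (gen q .X) = X := by
  simp [mkRep, gen]

theorem mkRep_Y : mkRep q X Xi Y Z h1 h2 h3 h4 h5 (gen q .Y) = Y := by
  simp [mkRep, gen]

theorem mkRep_Z : mkRep q X Xi Y Z h1 h2 h3 h4 h5 (gen q .Z) = Z := by
  simp [mkRep, gen]

end

theorem span4 {E : Type u} [AddCommGroup E] [Module K E] (p₁ p₂ p₃ p₄ x : E) (a b c e : K)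
    (h : x = a • p₁ + b • p₂ + c • p₃ + e • p₄) :
    x ∈ Submodule.span K {p₁, p₂, p₃, p₄} := by
  rw [h]
  refine Submodule.add_mem _ (Submodule.add_mem _ (Submodule.add_mem _ ?_ ?_) ?_) ?_ <;>
  · apply Submodule.smul_mem
    apply Submodule.subset_span
    simp

/-- if raising and lowering operators preserve `S`, then `S` is trivial -/
theorem irred_of_ladder {d : ℕ} {b : Basis (Fin (d + 1)) K V} {v : ℕ → V} (hb : NB d b v)
    (N M : End K V) (n m : ℕ → K) (hN : ∀ k, N (v k) = n k • v (k + 1))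
    (hn : ∀ k, k < d → n k ≠ 0) (hM : ∀ k, M (v (k + 1)) = m (k + 1) • v k)
    (hm : ∀ k, k < d → m (k + 1) ≠ 0) (S : Submodule K V)
    (hSN : ∀ x ∈ S, N x ∈ S) (hSM : ∀ x ∈ S, M x ∈ S) : S = ⊥ ∨ S = ⊤ := by
  by_cases hS : S = ⊥
  · exact Or.inl hS
  right
  obtain ⟨x, hxS, hx0⟩ := (Submodule.ne_bot_iff S).mp hS
  -- coordinates of `N x`
  have hcN : ∀ (x : V) (k : ℕ), k + 1 < d + 1 → cf b (k + 1) (N x) = n k * cf b k x := by
    intro x k hk
    have : (cf b (k + 1)).comp N = (n k) • cf b k := by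
      apply b.ext
      intro i
      rw [hb.hb, LinearMap.comp_apply, hN, map_smul, LinearMap.smul_apply, hb.cf_v, hb.cf_v]
      by_cases hik : k = i
      · have h1 : (i : ℕ) < d := by omega
        have h2 : (i : ℕ) ≤ d := by omega
        simp [hik, h1, h2]
      · have : ¬ (k + 1 = ↑i + 1) := by omega
        simp [hik]
    exact LinearMap.congr_fun this x
  have hcN0 : ∀ (x : V), cf b 0 (N x) = 0 := by
    intro x
    have : (cf b 0).comp N = 0 := by
      apply b.ext
      intro i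
      rw [hb.hb, LinearMap.comp_apply, hN, map_smul, hb.cf_v]
      simp
    exact LinearMap.congr_fun this x
  have hd : v d ∈ S := by
    have key : ∀ j, j ≤ d + 1 → ∀ x ∈ S, x ≠ 0 → (∀ k, k < d + 1 - j → cf b k x = 0) →
        v d ∈ S := by
      intro j
      induction j with
      | zero =>
        intro _ x _ hx0 hx
        exfalso; apply hx0
        exact NB.ext (b := b) (fun k hk => by rw [map_zero]; exact hx k (by omega))
      | succ j ih =>
        intro hj x hxS hx0 hx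
        by_cases hc : cf b (d - j) x = 0
        · apply ih (by omega) x hxS hx0
          intro k hk
          by_cases hk' : k < d + 1 - (j + 1)
          · exact hx k hk'
          · have : k = d - j := by omega
            rw [this]; exact hc
        · rcases Nat.eq_zero_or_pos j with hj0 | hj0
          · subst hj0
            have hxd : x = cf b d x • v d := by
              apply NB.ext (b := b)
              intro k hk
              rw [map_smul, hb.cf_v, smul_eq_mul]
              by_cases hkd : k = d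
              · subst hkd; simp
              · rw [hx k (by omega)]; simp [hkd]
            rw [Nat.sub_zero] at hc
            have := S.smul_mem (cf b d x)⁻¹ hxS
            rw [hxd, map_smul, hb.cf_v] at this
            simpa [smul_smul, hc] using this
          · apply ih (by omega) (N x) (hSN x hxS)
            · intro h0
              have e1 := hcN x (d - j) (by omega)
              rw [h0, map_zero] at e1
              exact (mul_ne_zero (hn _ (by omega)) hc) e1.symm
            · intro k hk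
              rcases Nat.eq_zero_or_pos k with hk0 | hk0
              · rw [hk0]; exact hcN0 x
              · obtain ⟨k', rfl⟩ := Nat.exists_eq_add_of_lt hk0
                rw [zero_add] at hk ⊢
                rw [hcN x k' (by omega), hx k' (by omega), mul_zero]
    exact key (d + 1) le_rfl x hxS hx0 (fun k hk => by omega)
  have hall : ∀ j, j ≤ d → v (d - j) ∈ S := by
    intro j
    induction j with
    | zero => intro _; exact hd
    | succ j ih =>
      intro hj
      have h1 := hSM _ (ih (by omega))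
      have e : d - j = (d - (j + 1)) + 1 := by omega
      rw [e, hM] at h1
      have := S.smul_mem (m (d - (j + 1) + 1))⁻¹ h1
      rwa [smul_smul, inv_mul_cancel₀ (hm _ (by omega)), one_smul] at this
  rw [eq_top_iff, ← b.span_eq, Submodule.span_le]
  rintro _ ⟨i, rfl⟩
  rw [hb.hb]
  have := hall (d - i) (by omega)
  rwa [show d - (d - (i : ℕ)) = i by omega] at this

theorem build {q : K} (hq : q ≠ 0) (hq1 : ∀ n, 0 < n → q ^ n ≠ 1) {d : ℕ} {A A' : End K V}
    {η η' U W U' W' r : K} {b : Basis (Fin (d + 1)) K V} {v : ℕ → V}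
    (h : Split (q ^ 2) d (A - η • 1) (A' - η' • 1) U W U' W' r b v)
    (hφ : ∀ k, k < d → ph (q ^ 2) d U W U' W' r (k + 1) ≠ 0)
    {a3 b3 : K} (h1 : U * b3 + U' * a3 = r) (h2 : a3 * b3 = W * W' * (q ^ 2) ^ d * q ^ 2) :
    HasUqStructure q A A' := by
  obtain ⟨hb, hbi⟩ := h
  set Q := q ^ 2 with hQdef
  have hQ : Q ≠ 0 := pow_ne_zero _ hq
  have hQ1 : ∀ n, 0 < n → Q ^ n ≠ 1 := by
    intro n hn
    rw [hQdef, ← pow_mul]
    exact hq1 _ (by omega)
  have hqq : q - q⁻¹ ≠ 0 := by
    intro h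
    apply hQ1 1 one_pos
    rw [pow_one, hQdef]
    have h' : q * (q - q⁻¹) = 0 := by rw [h, mul_zero]
    rw [mul_sub, mul_inv_cancel₀ hq] at h'
    linear_combination h'
  set L : ℕ → K := fun i => Q ^ i / q ^ d with hL
  have hL0 : ∀ i, L i ≠ 0 := fun i => div_ne_zero (pow_ne_zero _ hQ) (pow_ne_zero _ hq)
  have hLs : ∀ i, L (i + 1) = Q * L i := by intro i; simp only [hL, pow_succ]; ring
  set n : ℕ → K := fun i => - (U / Q ^ i + a3)⁻¹ with hn
  set m : ℕ → K := fun i => match i with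
    | 0 => 0
    | i + 1 => - ph Q d U W U' W' r (i + 1) / (U' / Q ^ i + b3) with hm
  have hfac := fun k => ph_factor (W := W) (W' := W') hQ d h1 h2 k
  have hU : ∀ k, k < d → U / Q ^ k + a3 ≠ 0 := by
    intro k hk h0
    apply hφ k hk
    rw [hfac, h0]; ring
  have hU' : ∀ k, k < d → U' / Q ^ k + b3 ≠ 0 := by
    intro k hk h0
    apply hφ k hk
    rw [hfac, h0]; ring
  have hnm : ∀ k, k ≤ d → n k * m (k + 1) = cc Q d (k + 1) := by
    intro k hk
    rcases lt_or_eq_of_le hk with hk | hk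
    · simp only [hn, hm]
      rw [hfac]
      have e1 := hU k hk
      have e2 := hU' k hk
      generalize U / Q ^ k + a3 = x at *
      generalize U' / Q ^ k + b3 = y at *
      field_simp
    · subst hk
      simp only [hm]
      rw [ph_top, cc_top hQ]; simp
  have hn0 : ∀ k, k < d → n k ≠ 0 := by
    intro k hk
    simp only [hn]
    exact neg_ne_zero.mpr (inv_ne_zero (hU k hk))
  have hm0 : ∀ k, k < d → m (k + 1) ≠ 0 := by
    intro k hk
    simp only [hm]
    exact div_ne_zero (neg_ne_zero.mpr (hφ k hk)) (hU' k hk)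
  have hmt : ∀ k, d ≤ k → m (k + 1) • v k = 0 := by
    intro k hk
    rcases eq_or_lt_of_le hk with hk | hk
    · subst hk
      simp only [hm]
      rw [ph_top]; simp
    · rw [hb.hz k hk, smul_zero]
  clear_value L n m Q
  -- the operators
  set Y : End K V := b.constr K (fun i => L i • v i) with hY
  set Yi : End K V := b.constr K (fun i => (L i)⁻¹ • v i) with hYi
  set N : End K V := b.constr K (fun i => n i • v (i + 1)) with hN
  set M : End K V := b.constr K (fun i => match (i : ℕ) with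
    | 0 => 0
    | i + 1 => m (i + 1) • v i) with hM
  have hYv : ∀ k, Y (v k) = L k • v k := by
    intro k
    by_cases hk : k < d + 1
    · have e : v k = b ⟨k, hk⟩ := (hb.hb ⟨k, hk⟩).symm
      rw [e, hY, Basis.constr_basis, e]
    · rw [hb.hz k (by omega)]; simp
  have hYiv : ∀ k, Yi (v k) = (L k)⁻¹ • v k := by
    intro k
    by_cases hk : k < d + 1
    · have e : v k = b ⟨k, hk⟩ := (hb.hb ⟨k, hk⟩).symm
      rw [e, hYi, Basis.constr_basis, e]
    · rw [hb.hz k (by omega)]; simp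
  have hNv : ∀ k, N (v k) = n k • v (k + 1) := by
    intro k
    by_cases hk : k < d + 1
    · have e : v k = b ⟨k, hk⟩ := (hb.hb ⟨k, hk⟩).symm
      rw [e, hN, Basis.constr_basis]
    · rw [hb.hz k (by omega), hb.hz (k + 1) (by omega)]; simp
  have hMv0 : M (v 0) = 0 := by
    have e : v 0 = b ⟨0, by omega⟩ := (hb.hb ⟨0, by omega⟩).symm
    rw [e, hM, Basis.constr_basis]
  have hMv : ∀ k, M (v (k + 1)) = m (k + 1) • v k := by
    intro k
    by_cases hk : k + 1 < d + 1
    · have e : v (k + 1) = b ⟨k + 1, hk⟩ := (hb.hb ⟨k + 1, hk⟩).symm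
      rw [e, hM, Basis.constr_basis]
    · rw [hmt k (by omega), hb.hz (k + 1) (by omega), map_zero]
  have hNnil : IsNilpotent N := by
    refine ⟨d + 1, hb.end_ext ?_⟩
    intro k hk
    have : ∀ j, ∃ c : K, (N ^ j) (v k) = c • v (k + j) := by
      intro j
      induction j with
      | zero => exact ⟨1, by simp⟩
      | succ j ih =>
        obtain ⟨c, hc⟩ := ih
        refine ⟨c * n (k + j), ?_⟩
        rw [pow_succ', Module.End.mul_apply, hc, map_smul, hNv, smul_smul, add_assoc]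
    obtain ⟨c, hc⟩ := this (d + 1)
    rw [hc, hb.hz _ (by omega), smul_zero]; rfl
  obtain ⟨g, hg⟩ := hNnil.isUnit_one_sub
  have hYYi : Y * Yi = 1 := by
    apply hb.end_ext
    intro k _
    rw [Module.End.mul_apply, hYiv, map_smul, hYv, smul_smul, inv_mul_cancel₀ (hL0 k), one_smul]
    rfl
  have hYiY : Yi * Y = 1 := by
    apply hb.end_ext
    intro k _
    rw [Module.End.mul_apply, hYv, map_smul, hYiv, smul_smul, mul_inv_cancel₀ (hL0 k), one_smul]
    rfl
  set X : End K V := g * Yi with hX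
  set Xi : End K V := Y * ((g⁻¹ : (End K V)ˣ) : End K V) with hXi
  have hXXi : X * Xi = 1 := by
    rw [hX, hXi, mul_assoc, ← mul_assoc Yi, hYiY, one_mul, Units.mul_inv]
  have hXiX : Xi * X = 1 := by
    rw [hX, hXi, mul_assoc, ← mul_assoc (↑g⁻¹ : End K V), Units.inv_mul, one_mul, hYYi]
  have hXv : ∀ k, X (v k) = (L k)⁻¹ • (v k - n k • v (k + 1)) := by
    intro k
    rw [hX, Module.End.mul_apply, hYiv, map_smul, hg, LinearMap.sub_apply, hNv]; rfl
  set Z : End K V := (1 - Q • M) * Yi with hZ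
  have hZv0 : Z (v 0) = (L 0)⁻¹ • v 0 := by
    rw [hZ, Module.End.mul_apply, hYiv, map_smul, LinearMap.sub_apply, LinearMap.smul_apply,
      hMv0]
    simp
  have hZv : ∀ k, Z (v (k + 1)) = (L (k + 1))⁻¹ • (v (k + 1) - (Q * m (k + 1)) • v k) := by
    intro k
    rw [hZ, Module.End.mul_apply, hYiv, map_smul, LinearMap.sub_apply, LinearMap.smul_apply,
      hMv, smul_smul]
    rfl
  have rel : ∀ a b : End K V, q • a - q⁻¹ • b = (q - q⁻¹) • (1 : End K V) →
      (q - q⁻¹)⁻¹ • (q • a - q⁻¹ • b) = 1 := by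
    intro a b hab
    rw [hab, smul_smul, inv_mul_cancel₀ hqq, one_smul]
  have hLs' : ∀ i, L (i + 1) = q ^ 2 * L i := by intro i; rw [hLs, hQdef]
  have r1 : (q - q⁻¹)⁻¹ • (q • (X * Y) - q⁻¹ • (Y * X)) = 1 := by
    apply rel
    apply hb.end_ext
    intro k _
    simp only [LinearMap.smul_apply, LinearMap.sub_apply, Module.End.mul_apply, hYv, hXv,
      map_smul, map_sub, Module.End.one_apply, hLs']
    match_scalars
    · have := hL0 k
      field_simp
    · have := hL0 k
      field_simp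
      ring
  have r2 : (q - q⁻¹)⁻¹ • (q • (Y * Z) - q⁻¹ • (Z * Y)) = 1 := by
    apply rel
    apply hb.end_ext
    intro k _
    match k with
    | 0 =>
      simp only [LinearMap.smul_apply, LinearMap.sub_apply, Module.End.mul_apply, hYv, hZv0,
        map_smul, Module.End.one_apply]
      match_scalars
      have := hL0 0
      field_simp
    | k + 1 =>
      simp only [LinearMap.smul_apply, LinearMap.sub_apply, Module.End.mul_apply, hYv, hZv,
        map_smul, map_sub, Module.End.one_apply, hLs', hQdef]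
      match_scalars
      · have := hL0 k
        field_simp
      · have := hL0 k
        field_simp
        ring
  have r3 : (q - q⁻¹)⁻¹ • (q • (Z * X) - q⁻¹ • (X * Z)) = 1 := by
    apply rel
    apply hb.end_ext
    intro k hk
    have hcr := cc_rec hQ d k
    rw [← hnm k (by omega)] at hcr
    have hL2 : (Q ^ k) ^ 2 / Q ^ d = L k ^ 2 := by
      simp only [hL, hQdef]
      rw [div_pow, ← pow_mul q d 2, ← pow_mul q 2 d, mul_comm d 2]
    rw [hL2] at hcr
    match k, hk, hcr with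
    | 0, hk, hcr =>
      rw [cc_zero, mul_zero, sub_zero] at hcr
      have a1 := hZv 0
      have a2 := hXv 0
      have l1 := hLs' 0
      simp only [zero_add] at a1 a2 l1 hcr
      simp only [LinearMap.smul_apply, LinearMap.sub_apply, Module.End.mul_apply, a2, hZv0, a1,
        map_smul, map_sub, Module.End.one_apply, l1, hQdef]
      match_scalars
      · have := hL0 0
        rw [hQdef] at hcr
        field_simp
        field_simp at hcr
        linear_combination hcr
      · have := hL0 0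
        field_simp
        ring
    | k + 1, hk, hcr =>
      rw [← hnm k (by omega)] at hcr
      have a1 := hZv k
      have a2 := hZv (k + 1)
      have b1 := hXv k
      have b2 := hXv (k + 1)
      have l1 := hLs' k
      have l2 := hLs' (k + 1)
      simp only [Nat.add_assoc, Nat.reduceAdd] at a1 a2 b1 b2 l1 l2 hcr
      simp only [LinearMap.smul_apply, LinearMap.sub_apply, Module.End.mul_apply, a2, b2, a1, b1,
        map_smul, map_sub, Module.End.one_apply, l1, l2, hQdef]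
      rw [l1, hQdef] at hcr
      match_scalars
      · have := hL0 k
        field_simp
        field_simp at hcr
        linear_combination hcr
      · have := hL0 k
        field_simp
        ring
      · have := hL0 k
        field_simp
        ring
  refine ⟨mkRep q X Xi Y Z hXXi hXiX r1 r2 r3, ?_, ?_, ?_⟩
  · intro S hS
    have hSX : ∀ x ∈ S, X x ∈ S := by
      have := hS (gen q .X)
      rwa [mkRep_X] at this
    have hSY : ∀ x ∈ S, Y x ∈ S := by
      have := hS (gen q .Y)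
      rwa [mkRep_Y] at this
    have hSZ : ∀ x ∈ S, Z x ∈ S := by
      have := hS (gen q .Z)
      rwa [mkRep_Z] at this
    apply irred_of_ladder hb (1 - X * Y) (1 - Y * Z) n m
    · intro k
      rw [LinearMap.sub_apply, Module.End.mul_apply, hYv, map_smul, hXv, smul_smul,
        mul_inv_cancel₀ (hL0 k), one_smul, Module.End.one_apply]
      abel
    · exact hn0
    · intro k
      rw [LinearMap.sub_apply, Module.End.mul_apply, hZv, map_smul, map_sub, map_smul, hYv, hYv,
        Module.End.one_apply, hLs]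
      match_scalars
      · have := hL0 k
        field_simp
        ring
      · have := hL0 k
        field_simp
    · exact hm0
    · intro x hx
      exact S.sub_mem hx (hSX _ (hSY _ hx))
    · intro x hx
      exact S.sub_mem hx (hSY _ (hSZ _ hx))
  · rw [map_mul, mkRep_X, mkRep_Y]
    apply span4 _ _ _ _ _ (η - a3) (U / q ^ d) (W * q ^ d) a3
    apply hb.end_ext
    intro k hk
    have e1 : A (v k) = (A - η • 1) (v k) + η • v k := by simp
    rw [e1, hbi.hA]
    simp only [LinearMap.smul_apply, LinearMap.add_apply, Module.End.mul_apply, hYv, hXv,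
        map_smul, Module.End.one_apply, cl]
    have hqd : q ^ d ≠ 0 := pow_ne_zero _ hq
    have hQk : Q ^ k ≠ 0 := pow_ne_zero _ hQ
    rcases lt_or_eq_of_le (Nat.lt_succ_iff.mp hk) with hk' | hk'
    · have e2 := hU k hk'
      match_scalars
      · simp only [hL]
        field_simp
        ring
      · have e3 := mul_inv_cancel₀ e2
        have e4 : U / q ^ d * (L k)⁻¹ = U / Q ^ k := by
          simp only [hL]
          field_simp
        have e6 : L k * (L k)⁻¹ = 1 := mul_inv_cancel₀ (hL0 k)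
        simp only [hn]
        linear_combination -e3 - (U / Q ^ k + a3)⁻¹ * e4 - a3 * (U / Q ^ k + a3)⁻¹ * e6
    · rw [hb.hz (k + 1) (by omega), smul_zero, smul_zero, sub_zero, add_zero]
      match_scalars
      simp only [hL]
      field_simp
      ring
  · rw [map_mul, mkRep_Y, mkRep_Z]
    apply span4 _ _ _ _ _ (η' - b3) (W' * q ^ d) (U' / q ^ d) b3
    apply hb.end_ext
    intro k hk
    have hqd : q ^ d ≠ 0 := pow_ne_zero _ hq
    have e1 : A' (v k) = (A' - η' • 1) (v k) + η' • v k := by simp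
    rw [e1]
    match k, hk with
    | 0, hk =>
      rw [hbi.hA0]
      simp only [LinearMap.smul_apply, LinearMap.add_apply, Module.End.mul_apply, hYv, hZv0,
        map_smul, Module.End.one_apply, cl]
      match_scalars
      simp only [hL, pow_zero]
      field_simp
      ring
    | k + 1, hk =>
      rw [hbi.hA']
      simp only [LinearMap.smul_apply, LinearMap.add_apply, Module.End.mul_apply, hYv, hZv,
        map_smul, map_sub, Module.End.one_apply, cl]
      have hQk : Q ^ k ≠ 0 := pow_ne_zero _ hQ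
      have e2 := hU' k (by omega)
      match_scalars
      · simp only [hL, pow_succ]
        field_simp
        ring
      · have e5 : m (k + 1) * (U' / Q ^ k + b3) = - ph Q d U W U' W' r (k + 1) := by
          simp only [hm]
          rw [div_mul_cancel₀ _ e2]
        have e4 : U' / q ^ d * (L (k + 1))⁻¹ * Q = U' / Q ^ k := by
          simp only [hL, pow_succ]
          field_simp
        have e6 : (L (k + 1))⁻¹ * L k * Q = 1 := by
          rw [hLs]
          have := hL0 k
          field_simp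
        linear_combination e5 + m (k + 1) * e4 + b3 * m (k + 1) * e6

end Pool.Agent.Lib.MP_32472a_al
end

section

open Module

namespace Pool.Agent.Lib.MP_32472a_al

universe u

variable {K : Type u} [Field K] {V : Type u} [AddCommGroup V] [Module K V]

/-- `w` is a basis of eigenvectors of `A` with eigenvalues `cl Q U W i`, on which `A'` is
irreducible tridiagonal -/
structure Tri (Q : K) (d : ℕ) (A A' : End K V) (U W : K) (w : Basis (Fin (d + 1)) K V) :
    Prop where
  diag : ∀ i : Fin (d + 1), A (w i) = cl Q U W i • w i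
  far1 : ∀ i j : Fin (d + 1), (i : ℕ) + 1 < j → w.repr (A' (w j)) i = 0
  far2 : ∀ i j : Fin (d + 1), (i : ℕ) + 1 < j → w.repr (A' (w i)) j = 0
  adj1 : ∀ i j : Fin (d + 1), (i : ℕ) + 1 = j → w.repr (A' (w j)) i ≠ 0
  adj2 : ∀ i j : Fin (d + 1), (i : ℕ) + 1 = j → w.repr (A' (w i)) j ≠ 0

namespace Tri

variable {Q : K} {d : ℕ} {A A' : End K V} {U W U' W' : K} {w e : Basis (Fin (d + 1)) K V}

theorem shift (h : Tri Q d A A' U W w) (c : K) : Tri Q d A (A' - c • 1) U W w := by
  have key : ∀ i j : Fin (d + 1), i ≠ j →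
      w.repr ((A' - c • 1) (w j)) i = w.repr (A' (w j)) i := by
    intro i j hij
    simp [hij.symm]
  have ne : ∀ i j : Fin (d + 1), (i : ℕ) < j → i ≠ j := fun i j hij hh => by
    rw [hh] at hij; omega
  refine ⟨h.diag, ?_, ?_, ?_, ?_⟩
  · intro i j hij; rw [key _ _ (ne i j (by omega))]; exact h.far1 i j hij
  · intro i j hij; rw [key _ _ (ne i j (by omega)).symm]; exact h.far2 i j hij
  · intro i j hij; rw [key _ _ (ne i j (by omega))]; exact h.adj1 i j hij
  · intro i j hij; rw [key _ _ (ne i j (by omega)).symm]; exact h.adj2 i j hij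

theorem rev (hQ : Q ≠ 0) (h : Tri Q d A A' U W w) :
    Tri Q d A A' (W * Q ^ d) (U / Q ^ d) (w.reindex Fin.revPerm) := by
  have hrepr : ∀ (x : V) (i : Fin (d + 1)),
      (w.reindex Fin.revPerm).repr x i = w.repr x (Fin.rev i) := by
    intro x i; simp
  have happ : ∀ i : Fin (d + 1), (w.reindex Fin.revPerm) i = w (Fin.rev i) := by
    intro i; simp
  refine ⟨?_, ?_, ?_, ?_, ?_⟩
  · intro i
    rw [happ, h.diag]
    congr 1
    have hi : ((Fin.rev i : Fin (d + 1)) : ℕ) = d - i := by simp [Fin.val_rev]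
    rw [hi]
    unfold cl
    have e : Q ^ d = Q ^ (d - i) * Q ^ (i : ℕ) := by
      rw [← pow_add]; congr 1; omega
    have h1 : Q ^ (d - i) ≠ 0 := pow_ne_zero _ hQ
    have h2 : Q ^ (i : ℕ) ≠ 0 := pow_ne_zero _ hQ
    rw [e]
    field_simp
    ring
  · intro i j hij
    rw [hrepr, happ]
    exact h.far2 _ _ (by simp only [Fin.val_rev]; omega)
  · intro i j hij
    rw [hrepr, happ]
    exact h.far1 _ _ (by simp only [Fin.val_rev]; omega)
  · intro i j hij
    rw [hrepr, happ]
    exact h.adj2 _ _ (by simp only [Fin.val_rev]; omega)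
  · intro i j hij
    rw [hrepr, happ]
    exact h.adj1 _ _ (by simp only [Fin.val_rev]; omega)

theorem flagged (h : Tri Q d A A' U W w) (h' : Tri Q d A' A U' W' e) :
    Flagged d A A' (cl Q U W) (cl Q U' W') w e := by
  refine ⟨h.diag, h.far1, h'.far2, h'.adj2, ?_, ?_⟩
  · intro n k hnk
    rw [h'.diag]
    simp [hnk.ne]
  · intro n
    rw [h'.diag]
    simp

end Tri

theorem tri_of_std {Q : K} (hQ : Q ≠ 0) (hQ1 : ∀ n, 0 < n → Q ^ n ≠ 1) {d : ℕ}
    {A A' : End K V} {θ : Fin (d + 1) → K} (h : IsStdOrdering d A A' θ)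
    (hθ : BetaRec d (Q + Q⁻¹) θ) (hns : d ≠ 0 → ∀ c : K, A ≠ c • 1) :
    ∃ (η U W : K) (w : Basis (Fin (d + 1)) K V), Tri Q d (A - η • 1) A' U W w ∧ U ≠ 0 ∧
      (d ≤ 1 → W = 0) := by
  obtain ⟨w, hw, hfar, hadj⟩ := h
  obtain ⟨η, U, W, hcl, hW, hU⟩ := closed_form hQ hQ1 hθ
  have hT : Tri Q d (A - η • 1) A' U W w := by
    refine ⟨?_, ?_, ?_, ?_, ?_⟩
    · intro i
      rw [LinearMap.sub_apply, hw, hcl]
      simp only [LinearMap.smul_apply, Module.End.one_apply]
      module
    · intro i j hij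
      have := (hfar i j hij).1
      rwa [LinearMap.toMatrix_apply] at this
    · intro i j hij
      have := (hfar i j hij).2
      rwa [LinearMap.toMatrix_apply] at this
    · intro i j hij
      have := (hadj i j hij).1
      rwa [LinearMap.toMatrix_apply] at this
    · intro i j hij
      have := (hadj i j hij).2
      rwa [LinearMap.toMatrix_apply] at this
  by_cases hU0 : U = 0
  · -- then `d ≥ 1`; the eigenvalues are distinct, so `W ≠ 0`
    have hd : d ≠ 0 := fun h => hU h hU0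
    by_cases hW0 : W = 0
    · exfalso
      apply hns hd η
      rw [← sub_eq_zero]
      apply w.ext
      intro i
      rw [hT.diag, hU0, hW0]
      simp [cl]
    · refine ⟨η, W * Q ^ d, U / Q ^ d, w.reindex Fin.revPerm, hT.rev hQ,
        mul_ne_zero hW0 (pow_ne_zero _ hQ), fun _ => by rw [hU0, zero_div]⟩
  · exact ⟨η, U, W, w, hT, hU0, hW⟩

theorem not_scalar {d : ℕ} {A A' : End K V} {θ : Fin (d + 1) → K} (h : IsStdOrdering d A' A θ) :
    d ≠ 0 → ∀ c : K, A ≠ c • 1 := by
  intro hd c hc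
  obtain ⟨w, hw, hfar, hadj⟩ := h
  have h1 : 1 < d + 1 := by omega
  have := (hadj ⟨0, by omega⟩ ⟨1, h1⟩ rfl).1
  rw [LinearMap.toMatrix_apply, hc] at this
  simp at this

/-- existence of the module structure -/
theorem positive {q : K} (hq : q ≠ 0) (hq1 : ∀ n, 0 < n → q ^ n ≠ 1) {d : ℕ}
    (hK : d ≤ 1 ∨ ∀ a b : K, ∃ t, t ^ 2 + a * t + b = 0) : Q1Holds K q d := by
  intro V _ _ A A' _ hβ
  have hQ : q ^ 2 ≠ 0 := pow_ne_zero _ hq
  have hQ1 : ∀ n, 0 < n → (q ^ 2) ^ n ≠ 1 := by
    intro n hn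
    rw [← pow_mul]
    exact hq1 _ (by omega)
  rw [inv_pow] at hβ
  obtain ⟨⟨θ, hs, hr⟩, ⟨θ', hs', hr'⟩⟩ := hβ
  obtain ⟨η, U, W, w, hT, hU, hW⟩ := tri_of_std hQ hQ1 hs hr (not_scalar hs')
  obtain ⟨η', U', W', e, hT', hU', hW'⟩ := tri_of_std hQ hQ1 hs' hr' (not_scalar hs)
  have hT2 := hT.shift η'
  have hT2' := hT'.shift η
  have hF := hT2.flagged hT2'
  obtain ⟨r, hsp⟩ := split_of_flagged hQ hQ1 hF hT2.far2
  have hφ : ∀ k, k < d → ph (q ^ 2) d U W U' W' r (k + 1) ≠ 0 := by
    intro k hk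
    exact hF.phi_ne_zero (by omega) (hsp.2.hA' k) (hT2.adj1 _ _ rfl)
  -- choice of `a₃`, `b₃`
  have hab : ∃ a3 b3 : K, U * b3 + U' * a3 = r ∧ a3 * b3 = W * W' * (q ^ 2) ^ d * q ^ 2 := by
    by_cases hWW : W * W' = 0
    · refine ⟨0, r / U, ?_, ?_⟩
      · field_simp; ring
      · rw [hWW]; ring
    · rcases hK with hK | hK
      · exfalso; apply hWW; rw [hW hK, zero_mul]
      · obtain ⟨t, ht⟩ := hK (-r) (U * U' * (W * W') * (q ^ 2) ^ d * q ^ 2)
        refine ⟨t / U', (r - t) / U, ?_, ?_⟩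
        · field_simp; ring
        · have : t * (r - t) = U * U' * (W * W' * (q ^ 2) ^ d * q ^ 2) := by
            linear_combination -ht
          field_simp
          linear_combination this
  obtain ⟨a3, b3, h1, h2⟩ := hab
  exact build hq hq1 hsp hφ h1 h2

end Pool.Agent.Lib.MP_32472a_al
end

section

open Module

namespace Pool.Agent.Lib.MP_32472a_al

universe u

variable {K : Type u} [Field K] {V : Type u} [AddCommGroup V] [Module K V]

/-- `ζ` in the Askey-Wilson relation -/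
def zt (Q : K) (d : ℕ) (U W U' W' r : K) : K :=
  cl Q U' W' 0 * ((2 - (Q + Q⁻¹)) * cl Q U W 0 ^ 2 - rh Q U W) +
    ph Q d U W U' W' r 1 * (cl Q U W 0 + cl Q U W 1 - (Q + Q⁻¹) * cl Q U W 0) -
    om Q d U W U' W' r * cl Q U W 0

theorem aw_mid {Q : K} (hQ : Q ≠ 0) (d : ℕ) (U W U' W' r : K) (j : ℕ) :
    cl Q U' W' (j + 1) * ((2 - (Q + Q⁻¹)) * cl Q U W (j + 1) ^ 2 - rh Q U W) +
      ph Q d U W U' W' r (j + 1) *
        (cl Q U W j + cl Q U W (j + 1) - (Q + Q⁻¹) * cl Q U W (j + 1)) +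
      ph Q d U W U' W' r (j + 2) *
        (cl Q U W (j + 1) + cl Q U W (j + 2) - (Q + Q⁻¹) * cl Q U W (j + 1)) =
    om Q d U W U' W' r * cl Q U W (j + 1) + zt Q d U W U' W' r := by
  unfold zt om ph cl rh
  have hD : Q ^ d ≠ 0 := pow_ne_zero _ hQ
  have hy : Q ^ j ≠ 0 := pow_ne_zero _ hQ
  simp only [pow_succ, pow_zero]
  generalize Q ^ d = D at *
  generalize Q ^ j = y at *
  field_simp
  ring

/-- the Askey-Wilson relation -/
theorem Split.aw {Q : K} (hQ : Q ≠ 0) {d : ℕ} {A A' : End K V} {U W U' W' r : K}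
    {b : Basis (Fin (d + 1)) K V} {v : ℕ → V} (h : Split Q d A A' U W U' W' r b v) :
    SS (Q + Q⁻¹) (rh Q U W) A A' = om Q d U W U' W' r • A + zt Q d U W U' W' r • 1 := by
  obtain ⟨hb, hbi⟩ := h
  apply hb.end_ext
  intro k _
  simp only [LinearMap.add_apply, LinearMap.smul_apply, Module.End.one_apply]
  match k with
  | 0 =>
    rw [hbi.S_zero, hbi.hA]
    have c0 := cl_rec hQ U' W' 0
    simp only [Nat.zero_add] at c0 ⊢
    rw [c0]
    have c1 := Cc_ph hQ d U W U' W' r 0
    simp only [Cc, ph_zero, Nat.zero_add] at c1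
    match_scalars
    · simp only [zt]; ring
    · linear_combination c1
    · ring
  | k + 1 =>
    rw [hbi.S_succ, hbi.hA]
    have c0 := cl_rec hQ U' W' (k + 1)
    have c1 := Cc_ph hQ d U W U' W' r (k + 1)
    have c2 := P_adj hQ U W k
    have c3 := aw_mid hQ d U W U' W' r k
    simp only [Cc, Nat.add_assoc, Nat.reduceAdd] at c0 c1 ⊢
    rw [c0, c2]
    match_scalars
    · ring
    · linear_combination c3
    · linear_combination c1
    · ring

theorem cl_rev {Q : K} (hQ : Q ≠ 0) (U W : K) {d i : ℕ} (hi : i ≤ d) :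
    cl Q U W (d - i) = cl Q (W * Q ^ d) (U / Q ^ d) i := by
  unfold cl
  have e : Q ^ d = Q ^ (d - i) * Q ^ (i : ℕ) := by
    rw [← pow_add]; congr 1; omega
  have h1 : Q ^ (d - i) ≠ 0 := pow_ne_zero _ hQ
  have h2 : Q ^ (i : ℕ) ≠ 0 := pow_ne_zero _ hQ
  rw [e]
  field_simp
  ring

theorem ph_swap {Q : K} (hQ : Q ≠ 0) {d : ℕ} (U W U' W' r : K) {i : ℕ} (hi : i ≤ d) :
    ph Q d U W U' W' r (d - i) =
      ph Q d (W' * Q ^ d) (U' / Q ^ d) (W * Q ^ d) (U / Q ^ d) r (i + 1) := by
  unfold ph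
  have e : Q ^ d = Q ^ (d - i) * Q ^ (i : ℕ) := by
    rw [← pow_add]; congr 1; omega
  have h1 : Q ^ (d - i) ≠ 0 := pow_ne_zero _ hQ
  have h2 : Q ^ (i : ℕ) ≠ 0 := pow_ne_zero _ hQ
  rw [pow_succ Q i, e]
  generalize Q ^ (d - i) = x at *
  generalize Q ^ i = y at *
  field_simp
  ring

/-- interchanging the two maps -/
theorem Split.swap {Q : K} (hQ : Q ≠ 0) {d : ℕ} {A A' : End K V} {U W U' W' r : K}
    {b : Basis (Fin (d + 1)) K V} {v : ℕ → V} (h : Split Q d A A' U W U' W' r b v)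
    (hφ : ∀ k, k < d → ph Q d U W U' W' r (k + 1) ≠ 0) :
    ∃ b' v', Split Q d A' A (W' * Q ^ d) (U' / Q ^ d) (W * Q ^ d) (U / Q ^ d) r b' v' := by
  obtain ⟨hb, hbi⟩ := h
  set c : ℕ → K := fun i => ∏ k ∈ Finset.range i, ph Q d U W U' W' r (d - k) with hc
  have hc0 : ∀ i, i ≤ d → c i ≠ 0 := by
    intro i hi
    simp only [hc]
    rw [Finset.prod_ne_zero_iff]
    intro k hk
    rw [Finset.mem_range] at hk
    obtain ⟨j, hj⟩ : ∃ j, d - k = j + 1 := ⟨d - k - 1, by omega⟩
    rw [hj]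
    exact hφ j (by omega)
  have hcs : ∀ i, c (i + 1) = c i * ph Q d U W U' W' r (d - i) := by
    intro i
    simp only [hc]
    rw [Finset.prod_range_succ]
  set v' : ℕ → V := fun i => if i ≤ d then c i • v (d - i) else 0 with hv'
  have hv1 : ∀ i, i ≤ d → v' i = c i • v (d - i) := by intro i hi; simp [hv', hi]
  have hv2 : ∀ i, d < i → v' i = 0 := by
    intro i hi; simp only [hv']; rw [if_neg (by omega)]
  refine ⟨(b.reindex Fin.revPerm).isUnitSMul
    (w := fun i : Fin (d + 1) => c i) (fun i => (hc0 i (by omega)).isUnit), v', ⟨?_, hv2⟩,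
    ?_, ?_, ?_⟩
  · intro i
    rw [Basis.isUnitSMul_apply, hv1 _ (by omega), Basis.reindex_apply]
    rw [Fin.revPerm_symm, Fin.revPerm_apply, hb.hb]
    congr 2
    simp only [Fin.val_rev]; omega
  · intro i
    rw [one_smul]
    by_cases hi : i ≤ d
    · rw [hv1 i hi, map_smul, ← cl_rev hQ _ _ hi]
      rcases eq_or_lt_of_le hi with hi' | hi'
      · subst hi'
        rw [Nat.sub_self, hbi.hA0, hv2 _ (by omega)]
        module
      · obtain ⟨j, hj⟩ : ∃ j, d - i = j + 1 := ⟨d - i - 1, by omega⟩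
        have hj2 : d - (i + 1) = j := by omega
        rw [hv1 _ hi', hcs, hj2, hj, hbi.hA']
        module
    · rw [hv2 i (by omega), hv2 (i + 1) (by omega)]; simp
  · have e1 := hbi.hA d
    rw [hb.hz (d + 1) (by omega), smul_zero, add_zero] at e1
    rw [hv1 0 (by omega), Nat.sub_zero, map_smul, e1, ← cl_rev hQ _ _ (Nat.zero_le d),
      Nat.sub_zero]
    module
  · intro i
    by_cases hi : i + 1 ≤ d
    · have hj2 : d - (i + 1) + 1 = d - i := by omega
      rw [hv1 _ hi, map_smul, hbi.hA, ← cl_rev hQ _ _ hi, hj2, hv1 i (by omega), hcs,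
        ← ph_swap hQ U W U' W' r (i := i) (by omega)]
      module
    · rw [hv2 (i + 1) (by omega), map_zero, smul_zero, zero_add]
      by_cases hi2 : i = d
      · subst hi2
        rw [ph_top, zero_smul]
      · rw [hv2 i (by omega), smul_zero]

end Pool.Agent.Lib.MP_32472a_al
end

section

open Module

namespace Pool.Agent.Lib.MP_32472a_al

universe u

variable {K : Type u} [Field K] {V : Type u} [AddCommGroup V] [Module K V]

theorem Bi.cf_A {d : ℕ} {b : Basis (Fin (d + 1)) K V} {v : ℕ → V} (hb : NB d b v)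
    {A A' : End K V} {θ s θ' t : ℕ → K} (h : Bi A A' v θ s θ' t) (i j : Fin (d + 1)) :
    b.repr (A (b i)) j = if j = i then θ i else if (j : ℕ) = i + 1 then s i else 0 := by
  have e : b.repr (A (b i)) j = cf b j (A (v i)) := by
    rw [hb.hb]
    unfold cf
    rw [dif_pos j.2]
    rfl
  rw [e, h.hA, map_add, map_smul, map_smul, hb.cf_v, hb.cf_v]
  by_cases h1 : j = i
  · subst h1
    have := j.2
    simp only [this, if_true, and_self]
    simp
  · have h2 : (j : ℕ) ≠ i := fun hh => h1 (Fin.ext hh)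
    by_cases h3 : (j : ℕ) = i + 1
    · have h4 := j.2
      rw [h3] at h4
      simp [h1, h3, h4]
    · simp [h1, h2, h3]

theorem exists_eigenbasis {d : ℕ} {b : Basis (Fin (d + 1)) K V} {v : ℕ → V} (hb : NB d b v)
    {A A' : End K V} {θ s θ' t : ℕ → K} (h : Bi A A' v θ s θ' t)
    (hinj : ∀ i j, i ≤ d → j ≤ d → θ i = θ j → i = j) :
    ∃ w : Basis (Fin (d + 1)) K V, ∀ i, A (w i) = θ i • w i := by
  have : Module.Finite K V := Module.Finite.of_basis b
  have hT : ((LinearMap.toMatrix b b A).transpose).IsUpperTriangular := by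
    intro i j hij
    have hij' : j < i := hij
    rw [Matrix.transpose_apply, LinearMap.toMatrix_apply, h.cf_A hb, if_neg hij'.ne,
      if_neg (by have : (j : ℕ) < i := hij'
                 omega)]
  have hcp : A.charpoly = ∏ i : Fin (d + 1), (Polynomial.X - Polynomial.C (θ i)) := by
    rw [← LinearMap.charpoly_toMatrix A b, ← Matrix.charpoly_transpose,
      Matrix.charpoly_of_isUpperTriangular _ hT]
    apply Finset.prod_congr rfl
    intro i _
    rw [Matrix.transpose_apply, LinearMap.toMatrix_apply, h.cf_A hb, if_pos rfl]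
  have hev : ∀ i : Fin (d + 1), A.HasEigenvalue (θ i) := by
    intro i
    rw [Module.End.hasEigenvalue_iff_isRoot_charpoly, hcp, Polynomial.IsRoot,
      Polynomial.eval_prod]
    apply Finset.prod_eq_zero (Finset.mem_univ i)
    simp
  choose w hw using fun i => (hev i).exists_hasEigenvector
  have hli : LinearIndependent K w := by
    apply Module.End.eigenvectors_linearIndependent' A (fun i : Fin (d + 1) => θ i) _ w hw
    intro i j hij
    exact Fin.ext (hinj i j (by omega) (by omega) hij)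
  have hfr : Fintype.card (Fin (d + 1)) = Module.finrank K V := by
    rw [Module.finrank_eq_card_basis b]
  refine ⟨basisOfLinearIndependentOfCardEqFinrank hli hfr, fun i => ?_⟩
  rw [coe_basisOfLinearIndependentOfCardEqFinrank]
  exact (hw i).apply_eq_smul

theorem pow_sub_ne {Q : K} (hQ : Q ≠ 0) (hQ1 : ∀ n, 0 < n → Q ^ n ≠ 1) {i j : ℕ} (h : i < j) :
    Q ^ j - Q ^ i ≠ 0 := by
  obtain ⟨k, rfl⟩ := Nat.exists_eq_add_of_lt h
  have : Q ^ (i + k + 1) - Q ^ i = Q ^ i * (Q ^ (k + 1) - 1) := by ring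
  rw [this]
  exact mul_ne_zero (pow_ne_zero _ hQ) (sub_ne_zero.mpr (hQ1 _ (by omega)))

theorem cl_inj {Q : K} (hQ : Q ≠ 0) (hQ1 : ∀ n, 0 < n → Q ^ n ≠ 1) {d : ℕ} {U W : K}
    (hD : ∀ k, 1 ≤ k → k ≤ 2 * d - 1 → U ≠ W * Q ^ k) :
    ∀ i j, i ≤ d → j ≤ d → cl Q U W i = cl Q U W j → i = j := by
  have key : ∀ i j, i < j → j ≤ d → cl Q U W i ≠ cl Q U W j := by
    intro i j hij hj h
    have e : cl Q U W i - cl Q U W j = (Q ^ j - Q ^ i) * (U - W * Q ^ (i + j)) /
        (Q ^ i * Q ^ j) := by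
      unfold cl
      have h1 : Q ^ i ≠ 0 := pow_ne_zero _ hQ
      have h2 : Q ^ j ≠ 0 := pow_ne_zero _ hQ
      rw [pow_add]
      field_simp
      ring
    rw [sub_eq_zero.mpr h] at e
    have := div_ne_zero (mul_ne_zero (pow_sub_ne hQ hQ1 hij)
      (sub_ne_zero.mpr (hD (i + j) (by omega) (by omega))))
      (mul_ne_zero (pow_ne_zero i hQ) (pow_ne_zero j hQ))
    exact this e.symm
  intro i j hi hj h
  rcases lt_trichotomy i j with hij | hij | hij
  · exact absurd h (key i j hij hj)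
  · exact hij
  · exact absurd h.symm (key j i hij hi)

theorem P_ne {Q : K} (hQ : Q ≠ 0) (hQ1 : ∀ n, 0 < n → Q ^ n ≠ 1) {d : ℕ} {U W : K}
    (hD : ∀ k, 1 ≤ k → k ≤ 2 * d - 1 → U ≠ W * Q ^ k) {i j : ℕ} (hij : i + 1 < j) (hj : j ≤ d) :
    cl Q U W i ^ 2 - (Q + Q⁻¹) * cl Q U W i * cl Q U W j + cl Q U W j ^ 2 - rh Q U W ≠ 0 := by
  have e : cl Q U W i ^ 2 - (Q + Q⁻¹) * cl Q U W i * cl Q U W j + cl Q U W j ^ 2 - rh Q U W =
      (Q ^ (j + 1) - Q ^ i) * (Q ^ j - Q ^ (i + 1)) * (U - W * Q ^ (i + j + 1)) *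
        (U * Q - W * Q ^ (i + j)) / (Q ^ 2 * (Q ^ i) ^ 2 * (Q ^ j) ^ 2) := by
    unfold cl rh
    have h1 : Q ^ i ≠ 0 := pow_ne_zero _ hQ
    have h2 : Q ^ j ≠ 0 := pow_ne_zero _ hQ
    rw [pow_succ Q j, pow_succ Q i, pow_succ Q (i + j), pow_add]
    generalize Q ^ i = x at *
    generalize Q ^ j = y at *
    field_simp
    ring
  rw [e]
  refine div_ne_zero (mul_ne_zero (mul_ne_zero (mul_ne_zero ?_ ?_) ?_) ?_) ?_
  · exact pow_sub_ne hQ hQ1 (by omega)
  · exact pow_sub_ne hQ hQ1 hij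
  · exact sub_ne_zero.mpr (hD _ (by omega) (by omega))
  · obtain ⟨k, hk⟩ : ∃ k, i + j = k + 1 := ⟨i + j - 1, by omega⟩
    have : U * Q - W * Q ^ (i + j) = Q * (U - W * Q ^ k) := by rw [hk]; ring
    rw [this]
    exact mul_ne_zero hQ (sub_ne_zero.mpr (hD _ (by omega) (by omega)))
  · exact mul_ne_zero (mul_ne_zero (pow_ne_zero _ hQ) (pow_ne_zero _ (pow_ne_zero _ hQ)))
      (pow_ne_zero _ (pow_ne_zero _ hQ))

/-- nonvanishing of the split sequence when the quadratic has no root -/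
theorem ph_ne_of_noroot {Q : K} (hQ : Q ≠ 0) (hQ1 : ∀ n, 0 < n → Q ^ n ≠ 1) {d : ℕ}
    {U W U' W' r : K} (hroot : ∀ t : K, t ^ 2 - r * t + U * U' * (W * W') * (Q ^ d * Q) ≠ 0)
    {k : ℕ} (hk : k < d) : ph Q d U W U' W' r (k + 1) ≠ 0 := by
  unfold ph
  refine div_ne_zero (mul_ne_zero (mul_ne_zero ?_ ?_) ?_) ?_
  · intro h
    exact hQ1 (k + 1) (by omega) (by linear_combination -h)
  · have := pow_sub_ne hQ hQ1 (show k + 1 < d + 1 by omega)
    rwa [pow_succ Q d] at this
  · intro h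
    have hy : Q ^ k ≠ 0 := pow_ne_zero _ hQ
    apply hroot (-(U * U' / Q ^ k))
    have e : (-(U * U' / Q ^ k)) ^ 2 - r * (-(U * U' / Q ^ k)) +
        U * U' * (W * W') * (Q ^ d * Q) = (U * U' / (Q ^ k) ^ 2) / Q *
        (U * U' * Q + r * Q ^ (k + 1) + W * W' * Q ^ d * (Q ^ (k + 1)) ^ 2) := by
      rw [pow_succ Q k]
      field_simp
      ring
    rw [e, h, mul_zero]
  · exact mul_ne_zero (mul_ne_zero (pow_ne_zero _ hQ) hQ) (pow_ne_zero _ (pow_ne_zero _ hQ))

/-- `(b, w)` is flagged for any eigenbasis `w` on which `A'` is tridiagonal -/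
theorem flagged_of_split {Q : K} {d : ℕ} {A A' : End K V} {U W U' W' r U₁ W₁ : K}
    {b : Basis (Fin (d + 1)) K V} {v : ℕ → V} (h : Split Q d A A' U W U' W' r b v)
    {w : Basis (Fin (d + 1)) K V} (hw : ∀ i : Fin (d + 1), A (w i) = cl Q U₁ W₁ i • w i)
    (h1 : ∀ i j : Fin (d + 1), (i : ℕ) + 1 < j → w.repr (A' (w j)) i = 0) :
    Flagged d A A' (cl Q U₁ W₁) (cl Q U' W') w b := by
  obtain ⟨hb, hbi⟩ := h
  have hA' : ∀ n k : Fin (d + 1), n ≤ k → b.repr (A' (b n)) k = if k = n then cl Q U' W' n else 0 := by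
    intro n k hnk
    have e : b.repr (A' (b n)) k = cf b k (A' (v n)) := by
      rw [hb.hb]
      unfold cf
      rw [dif_pos k.2]
      rfl
    rw [e]
    obtain ⟨n, hn⟩ := n
    have hnk' : n ≤ (k : ℕ) := hnk
    match n, hn, hnk' with
    | 0, hn, _ =>
      simp only
      rw [hbi.hA0, map_smul, hb.cf_v]
      by_cases hk : (k : ℕ) = 0
      · have : k = ⟨0, hn⟩ := Fin.ext hk
        simp [this]
      · have : k ≠ ⟨0, hn⟩ := fun hh => hk (congrArg Fin.val hh)
        rw [if_neg this, if_neg (by omega), smul_zero]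
    | n + 1, hn, hnk' =>
      simp only
      rw [hbi.hA', map_add, map_smul, map_smul, hb.cf_v, hb.cf_v]
      have hkn : ¬ (k : ℕ) = n := by omega
      by_cases hk : (k : ℕ) = n + 1
      · have : k = ⟨n + 1, hn⟩ := Fin.ext hk
        have h3 : n < d := by omega
        simp [this, h3]
      · have : k ≠ ⟨n + 1, hn⟩ := fun hh => hk (congrArg Fin.val hh)
        simp [hk, hkn, this]
  refine ⟨hw, h1, ?_, ?_, ?_, ?_⟩
  · intro n k hnk
    rw [hbi.cf_A hb, if_neg (by intro hh; rw [hh] at hnk; omega), if_neg (by omega)]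
  · intro n k hnk
    rw [hbi.cf_A hb, if_neg (by intro hh; rw [hh] at hnk; omega), if_pos hnk.symm]
    exact one_ne_zero
  · intro n k hnk
    rw [hA' n k hnk.le, if_neg hnk.ne']
  · intro n
    rw [hA' n n le_rfl, if_pos rfl]

end Pool.Agent.Lib.MP_32472a_al
end
end
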