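import Pool.Agent.Lib.MP_32472a_al.Leon

section

open Module

namespace Pool.Agent.Lib.MP_32472a_al

universe u

variable {K : Type u} [Field K] {V : Type u} [AddCommGroup V] [Module K V]

theorem NB.v0_ne {d : ℕ} {b : Basis (Fin (d + 1)) K V} {v : ℕ → V} (hb : NB d b v) : v 0 ≠ 0 := by
  have := hb.hb ⟨0, by omega⟩
  simp only at this
  rw [← this]
  exact b.ne_zero _

theorem r_rev {Q : K} (hQ : Q ≠ 0) (hQ1 : ∀ n, 0 < n → Q ^ n ≠ 1) {d : ℕ} (hd : 0 < d)
    {A A' : End K V} {U W U' W' r r' : K} {b b' : Basis (Fin (d + 1)) K V} {v v' : ℕ → V}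
    (h : Split Q d A A' U W U' W' r b v)
    (h' : Split Q d A A' (W * Q ^ d) (U / Q ^ d) U' W' r' b' v') (h0 : v' 0 = v 0) : r' = r := by
  obtain ⟨hb, hbi⟩ := h
  obtain ⟨hb', hbi'⟩ := h'
  have e1 := hbi.hA 0
  have e2 := hbi'.hA 0
  have e3 := hbi.hA' 0
  have e4 := hbi'.hA' 0
  simp only [zero_add, one_smul] at e1 e2 e3 e4
  have e5 : v' 1 = v 1 + (cl Q U W 0 - cl Q (W * Q ^ d) (U / Q ^ d) 0) • v 0 := by
    rw [h0, e1] at e2
    have : v' 1 = (cl Q U W 0 • v 0 + v 1) - cl Q (W * Q ^ d) (U / Q ^ d) 0 • v 0 := by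
      rw [e2]; abel
    rw [this]; module
  rw [e5, map_add, map_smul, e3, hbi.hA0, h0] at e4
  have e6 : (ph Q d U W U' W' r 1 + (cl Q U W 0 - cl Q (W * Q ^ d) (U / Q ^ d) 0) *
      (cl Q U' W' 0 - cl Q U' W' 1) - ph Q d (W * Q ^ d) (U / Q ^ d) U' W' r' 1) • v 0 = 0 := by
    have e7 := sub_eq_zero.mpr e4
    rw [← e7]
    module
  have e8 := (smul_eq_zero.mp e6).resolve_right hb.v0_ne
  have hD : Q ^ d ≠ 0 := pow_ne_zero _ hQ
  have h1 : 1 - Q ≠ 0 := by
    intro h; apply hQ1 1 one_pos; rw [pow_one]; linear_combination -h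
  have h2 : Q ^ d - 1 ≠ 0 := sub_ne_zero.mpr (hQ1 d hd)
  have e9 : ph Q d U W U' W' r 1 + (cl Q U W 0 - cl Q (W * Q ^ d) (U / Q ^ d) 0) *
      (cl Q U' W' 0 - cl Q U' W' 1) - ph Q d (W * Q ^ d) (U / Q ^ d) U' W' r' 1 =
      (1 - Q) * (Q ^ d - 1) / (Q ^ d * Q) * (r - r') := by
    unfold ph cl
    simp only [pow_zero, pow_one]
    generalize Q ^ d = D at *
    field_simp
    ring
  rw [e9] at e8
  have h3 : (1 - Q) * (Q ^ d - 1) / (Q ^ d * Q) ≠ 0 :=
    div_ne_zero (mul_ne_zero h1 h2) (mul_ne_zero hD hQ)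
  exact (sub_eq_zero.mp ((mul_eq_zero.mp e8).resolve_left h3)).symm

theorem u_eq {Q : K} {d : ℕ} {A A' : End K V} {U W U' W' r : K}
    {b : Basis (Fin (d + 1)) K V} {v : ℕ → V} (h : Split Q d A A' U W U' W' r b v) (i : ℕ) :
    Flagged.u A (cl Q U W) (b 0) i = v i := by
  obtain ⟨hb, hbi⟩ := h
  induction i with
  | zero => exact hb.hb 0
  | succ i ih =>
    show A (Flagged.u A (cl Q U W) (b 0) i) - cl Q U W i • Flagged.u A (cl Q U W) (b 0) i = _
    rw [ih, hbi.hA]
    module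

theorem tri_of_split {Q : K} (hQ : Q ≠ 0) (hQ1 : ∀ n, 0 < n → Q ^ n ≠ 1) {d : ℕ}
    {A A' : End K V} {U W U' W' r : K} {b : Basis (Fin (d + 1)) K V} {v : ℕ → V}
    (h : Split Q d A A' U W U' W' r b v)
    (hD : ∀ k, 1 ≤ k → k ≤ 2 * d - 1 → U ≠ W * Q ^ k)
    (hroot : ∀ t : K, t ^ 2 - r * t + U * U' * (W * W') * (Q ^ d * Q) ≠ 0) :
    ∃ w, Tri Q d A A' U W w := by
  obtain ⟨w, hw⟩ := exists_eigenbasis h.1 h.2 (cl_inj hQ hQ1 hD)
  have haw := h.aw hQ
  have hfar : ∀ i j : Fin (d + 1), i ≠ j →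
      (cl Q U W i ^ 2 - (Q + Q⁻¹) * cl Q U W i * cl Q U W j + cl Q U W j ^ 2 - rh Q U W) *
        w.repr (A' (w j)) i = 0 := by
    intro i j hij
    rw [← repr_SS w (θ := fun i => cl Q U W i) hw, haw]
    simp only [LinearMap.add_apply, LinearMap.smul_apply, Module.End.one_apply, hw, map_add,
      map_smul, Finsupp.add_apply, Finsupp.smul_apply, Basis.repr_self]
    simp [hij.symm]
  have far1 : ∀ i j : Fin (d + 1), (i : ℕ) + 1 < j → w.repr (A' (w j)) i = 0 := by
    intro i j hij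
    have := hfar i j (by intro hh; rw [hh] at hij; omega)
    exact (mul_eq_zero.mp this).resolve_left (P_ne hQ hQ1 hD hij (by omega))
  have far2 : ∀ i j : Fin (d + 1), (i : ℕ) + 1 < j → w.repr (A' (w i)) j = 0 := by
    intro i j hij
    have := hfar j i (by intro hh; rw [hh] at hij; omega)
    refine (mul_eq_zero.mp this).resolve_left ?_
    have h3 := P_ne hQ hQ1 hD hij (by omega)
    intro h4
    apply h3
    linear_combination h4
  refine ⟨w, hw, far1, far2, ?_, ?_⟩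
  · have F := flagged_of_split h hw far1
    intro i j hij
    have hi : (i : ℕ) + 1 < d + 1 := by omega
    have hj : j = ⟨i + 1, hi⟩ := Fin.ext hij.symm
    rw [hj]
    refine F.repr_ne_zero hi (c := ph Q d U W U' W' r (i + 1)) ?_
      (ph_ne_of_noroot hQ hQ1 hroot (by omega))
    rw [u_eq h, u_eq h]
    exact h.2.hA' i
  · -- reversed order
    set w' := w.reindex Fin.revPerm with hw'
    have hrepr : ∀ (x : V) (i : Fin (d + 1)), w'.repr x i = w.repr x (Fin.rev i) := by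
      intro x i; simp [hw']
    have happ : ∀ i : Fin (d + 1), w' i = w (Fin.rev i) := by
      intro i; simp [hw']
    have hwr : ∀ i : Fin (d + 1), A (w' i) = cl Q (W * Q ^ d) (U / Q ^ d) i • w' i := by
      intro i
      rw [happ, hw, ← cl_rev hQ _ _ (i := (i : ℕ)) (by omega)]
      congr 2
      simp only [Fin.val_rev]; omega
    have far1' : ∀ i j : Fin (d + 1), (i : ℕ) + 1 < j → w'.repr (A' (w' j)) i = 0 := by
      intro i j hij
      rw [hrepr, happ]
      exact far2 _ _ (by simp only [Fin.val_rev]; omega)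
    have far2' : ∀ i j : Fin (d + 1), (i : ℕ) + 1 < j → w'.repr (A' (w' i)) j = 0 := by
      intro i j hij
      rw [hrepr, happ]
      exact far1 _ _ (by simp only [Fin.val_rev]; omega)
    have F := flagged_of_split h hwr far1'
    obtain ⟨r', hr'⟩ := split_of_flagged hQ hQ1 F far2'
    intro i j hij
    have hd : 0 < d := by omega
    have hrr : r' = r := r_rev hQ hQ1 hd h hr' (by
      show b 0 = v 0
      exact h.1.hb 0)
    subst hrr
    obtain ⟨m, hm⟩ : ∃ m : ℕ, m = d - j := ⟨_, rfl⟩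
    have hj1 : m + 1 < d + 1 := by omega
    have hi : i = Fin.rev (⟨m + 1, hj1⟩ : Fin (d + 1)) := by
      apply Fin.ext
      simp only [Fin.val_rev]; omega
    have hj : j = Fin.rev (⟨m, by omega⟩ : Fin (d + 1)) := by
      apply Fin.ext
      simp only [Fin.val_rev]; omega
    rw [hi, hj, ← happ, ← hrepr]
    exact F.repr_ne_zero hj1
      (c := ph Q d (W * Q ^ d) (U / Q ^ d) U' W' r' (m + 1))
      (hr'.2.hA' _) (ph_ne_of_noroot hQ hQ1 (by
        intro t
        have := hroot t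
        intro h5
        apply this
        rw [← h5]
        have hDD : Q ^ d ≠ 0 := pow_ne_zero _ hQ
        field_simp) (by omega))

end Pool.Agent.Lib.MP_32472a_al
end

section

open Module

namespace Pool.Agent.Lib.MP_32472a_al

universe u

variable {K : Type u} [Field K] {V : Type u} [AddCommGroup V] [Module K V]

/-- an operator multiplied by a non-root of unity under conjugation is nilpotent -/
theorem nilp_of_conj [Module.Finite K V] {c : K} (hc1 : ∀ n, 0 < n → c ^ n ≠ 1)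
    (hc0 : c ≠ 0) {P P' N : End K V} (hP : P * P' = 1)
    (h : P * N = c • (N * P)) : IsNilpotent N := by
  by_contra hN
  have hN' : ∀ k : ℕ, N ^ k ≠ 0 := fun k hk => hN ⟨k, hk⟩
  -- conjugation
  set f : End K (End K V) := LinearMap.mulLeft K P * LinearMap.mulRight K P' with hf
  have hfN : ∀ k : ℕ, P * N ^ k = c ^ k • (N ^ k * P) := by
    intro k
    induction k with
    | zero => simp
    | succ k ih =>
      rw [pow_succ, ← mul_assoc, ih, smul_mul_assoc, mul_assoc, h, mul_smul_comm, smul_smul,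
        ← mul_assoc, ← pow_succ]
  have hev : ∀ k : ℕ, f.HasEigenvector (c ^ k) (N ^ k) := by
    intro k
    refine ⟨?_, hN' k⟩
    rw [Module.End.mem_eigenspace_iff, hf, Module.End.mul_apply, LinearMap.mulRight_apply,
      LinearMap.mulLeft_apply, ← mul_assoc, hfN, smul_mul_assoc, mul_assoc, hP, mul_one]
  have hinj : Function.Injective (fun k : ℕ => c ^ k) := by
    intro i j hij
    simp only at hij
    by_contra hne
    rcases lt_or_gt_of_ne hne with hlt | hlt
    · exact pow_sub_ne hc0 hc1 hlt (sub_eq_zero.mpr hij.symm)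
    · exact pow_sub_ne hc0 hc1 hlt (sub_eq_zero.mpr hij)
  have := Module.End.eigenvectors_linearIndependent' f (fun k : ℕ => c ^ k) hinj _ hev
  have hfin := this.finite
  exact not_finite ℕ

/-- the relations of the equitable presentation, in the form that is used -/
structure Rels (Q : K) (X Xi Y Z : End K V) : Prop where
  xi : X * Xi = 1
  ix : Xi * X = 1
  yx : Y * X = 1 - Q • (1 - X * Y)
  zy : Z * Y = 1 - Q • (1 - Y * Z)
  zx : Z * X = (1 - Q⁻¹) • 1 + Q⁻¹ • (X * Z)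

namespace Rels

variable {Q : K} {X Xi Y Z : End K V}

theorem nx (h : Rels Q X Xi Y Z) : (1 - X * Y) * X = Q • (X * (1 - X * Y)) := by
  have : (1 - X * Y) * X = X * (1 - Y * X) := by noncomm_ring
  rw [this, h.yx]
  simp only [sub_sub_cancel, mul_smul_comm]

theorem yn (h : Rels Q X Xi Y Z) : Y * (1 - X * Y) = Q • ((1 - X * Y) * Y) := by
  have : Y * (1 - X * Y) = (1 - Y * X) * Y := by noncomm_ring
  rw [this, h.yx]
  simp only [sub_sub_cancel, smul_mul_assoc]

theorem my (h : Rels Q X Xi Y Z) : (1 - Y * Z) * Y = Q • (Y * (1 - Y * Z)) := by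
  have : (1 - Y * Z) * Y = Y * (1 - Z * Y) := by noncomm_ring
  rw [this, h.zy]
  simp only [sub_sub_cancel, mul_smul_comm]

theorem mn (hQ : Q ≠ 0) (h : Rels Q X Xi Y Z) (x : V) :
    (1 - Y * Z) ((1 - X * Y) x) = Q • (1 - X * Y) ((1 - Y * Z) x) +
      (1 - Q⁻¹) • (Y (Y x) - x) := by
  have e1 : ∀ x, Z (X x) = (1 - Q⁻¹) • x + Q⁻¹ • X (Z x) := by
    intro x
    have := LinearMap.congr_fun h.zx x
    simpa using this
  have e2 : ∀ x, Y (X x) = x - Q • (x - X (Y x)) := by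
    intro x
    have := LinearMap.congr_fun h.yx x
    simpa using this
  have e3 : ∀ x, Z (Y x) = x - Q • (x - Y (Z x)) := by
    intro x
    have := LinearMap.congr_fun h.zy x
    simpa using this
  simp only [LinearMap.sub_apply, Module.End.one_apply, Module.End.mul_apply, map_sub]
  rw [e1, map_add, map_smul, map_smul, e3, e2]
  simp only [map_sub, map_smul]
  match_scalars <;> field_simp <;> ring

theorem isUnit_of_mul [Module.Finite K V] (h : Rels Q X Xi Y Z) (hQ : Q ≠ 0)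
    (hQ1 : ∀ n, 0 < n → Q ^ n ≠ 1) :
    IsNilpotent (1 - X * Y) ∧ IsNilpotent (1 - Y * Z) ∧ ∃ Yi : End K V, Y * Yi = 1 ∧ Yi * Y = 1 := by
  have hc0 : Q⁻¹ ≠ 0 := inv_ne_zero hQ
  have hc1 : ∀ n, 0 < n → Q⁻¹ ^ n ≠ 1 := by
    intro n hn h; apply hQ1 n hn
    rw [inv_pow, inv_eq_one] at h
    exact h
  have h1 : IsNilpotent (1 - X * Y) := by
    apply nilp_of_conj hc1 hc0 h.xi
    rw [h.nx, smul_smul, inv_mul_cancel₀ hQ, one_smul]
  obtain ⟨g, hg⟩ := h1.isUnit_one_sub
  rw [sub_sub_cancel] at hg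
  -- `g = X Y`
  have hY : Y = Xi * g := by rw [hg, ← mul_assoc, h.ix, one_mul]
  have hYi1 : Y * ((g⁻¹ : (End K V)ˣ) * X) = 1 := by
    rw [← mul_assoc, hY, mul_assoc Xi, Units.mul_inv, mul_one, h.ix]
  have hYi2 : ((g⁻¹ : (End K V)ˣ) * X) * Y = 1 := by
    rw [mul_assoc, ← hg, Units.inv_mul]
  refine ⟨h1, ?_, _, hYi1, hYi2⟩
  apply nilp_of_conj hc1 hc0 hYi1
  rw [h.my, smul_smul, inv_mul_cancel₀ hQ, one_smul]

end Rels

/-- common hypotheses, in terms of `N = 1 - XY`, `M = 1 - YZ` -/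
structure Lad (Q : K) (Y N M : End K V) : Prop where
  yn : ∀ x, Y (N x) = Q • N (Y x)
  my : ∀ x, M (Y x) = Q • Y (M x)
  mn : ∀ x, M (N x) = Q • N (M x) + (1 - Q⁻¹) • (Y (Y x) - x)

namespace Lad

variable {Q : K} {Y N M : End K V}

theorem yn_pow (h : Lad Q Y N M) (k : ℕ) (x : V) :
    Y ((N ^ k) x) = Q ^ k • (N ^ k) (Y x) := by
  induction k with
  | zero => simp
  | succ k ih =>
    rw [pow_succ', Module.End.mul_apply, h.yn, ih, map_smul, smul_smul, Module.End.mul_apply,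
      ← pow_succ']

theorem mn_pow (h : Lad Q Y N M) (hQ : Q ≠ 0) (k : ℕ) (x : V) :
    M ((N ^ (k + 1)) x) = Q ^ (k + 1) • (N ^ (k + 1)) (M x) +
      (Q⁻¹ * (Q ^ (k + 1) - 1)) • (N ^ k) (Q ^ k • Y (Y x) - x) := by
  induction k with
  | zero =>
    simp only [zero_add, pow_one, pow_zero, Module.End.one_apply, one_smul, h.mn]
    match_scalars <;> field_simp
  | succ k ih =>
    rw [pow_succ' N (k + 1), Module.End.mul_apply, h.mn, ih, h.yn_pow, map_smul, h.yn_pow]
    rw [pow_succ' N k, Module.End.mul_apply, Module.End.mul_apply, Module.End.mul_apply]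
    simp only [map_add, map_smul, map_sub, Module.End.mul_apply]
    match_scalars <;> field_simp <;> ring

theorem exists_hw (h : Lad Q Y N M) (hQ : Q ≠ 0) (hQ1 : ∀ n, 0 < n → Q ^ n ≠ 1) {q : K}
    (hq : q ^ 2 = Q) (k : ℕ) : ∀ w : V, w ≠ 0 → M w = 0 → (N ^ k) w = 0 →
    ∃ (w0 : V) (l : K), w0 ≠ 0 ∧ M w0 = 0 ∧ Y w0 = l • w0 := by
  induction k with
  | zero => intro w hw _ h0; exact absurd h0 hw
  | succ k ih =>
    intro w hw hM hN
    have h1 := h.mn_pow hQ k w
    rw [hN, map_zero, hM, map_zero, smul_zero, zero_add] at h1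
    have h2 : Q⁻¹ * (Q ^ (k + 1) - 1) ≠ 0 :=
      mul_ne_zero (inv_ne_zero hQ) (sub_ne_zero.mpr (hQ1 _ (by omega)))
    have h3 := (smul_eq_zero.mp h1.symm).resolve_left h2
    have h4 : M (Q ^ k • Y (Y w) - w) = 0 := by
      rw [map_sub, map_smul, h.my, h.my, hM]; simp
    by_cases h5 : Q ^ k • Y (Y w) - w = 0
    · -- factor
      have hq0 : q ≠ 0 := by
        intro h0; apply hQ; rw [← hq, h0]; ring
      have hqk : q ^ k ≠ 0 := pow_ne_zero _ hq0
      have h6 : Y (Y w) = ((q ^ k)⁻¹ * (q ^ k)⁻¹) • w := by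
        have h7 : Q ^ k • Y (Y w) = w := sub_eq_zero.mp h5
        have h8 : Q ^ k = q ^ k * q ^ k := by rw [← hq, ← pow_mul]; ring
        rw [h8] at h7
        nth_rewrite 2 [← h7]
        rw [smul_smul]
        have : (q ^ k)⁻¹ * (q ^ k)⁻¹ * (q ^ k * q ^ k) = 1 := by field_simp
        rw [this, one_smul]
      by_cases h9 : Y w + (q ^ k)⁻¹ • w = 0
      · refine ⟨w, -(q ^ k)⁻¹, hw, hM, ?_⟩
        rw [neg_smul]
        exact eq_neg_of_add_eq_zero_left h9
      · refine ⟨Y w + (q ^ k)⁻¹ • w, (q ^ k)⁻¹, h9, ?_, ?_⟩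
        · rw [map_add, map_smul, h.my, hM]; simp
        · rw [map_add, map_smul, h6]
          module
    · exact ih _ h5 h4 h3

end Lad

end Pool.Agent.Lib.MP_32472a_al
end

section

open Module

namespace Pool.Agent.Lib.MP_32472a_al

universe u

variable {K : Type u} [Field K] {V : Type u} [AddCommGroup V] [Module K V]

theorem classify {q Q : K} (hqQ : q ^ 2 = Q) (hQ : Q ≠ 0) (hq1 : ∀ n, 0 < n → Q ^ n ≠ 1)
    {d : ℕ} [Module.Finite K V] (hfr : Module.finrank K V = d + 1) {X Xi Y Z : End K V}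
    (h : Rels Q X Xi Y Z)
    (hirr : ∀ W : Submodule K V, (∀ x ∈ W, X x ∈ W) → (∀ x ∈ W, Xi x ∈ W) →
      (∀ x ∈ W, Y x ∈ W) → (∀ x ∈ W, Z x ∈ W) → W = ⊥ ∨ W = ⊤) :
    ∃ (l : K) (b : Basis (Fin (d + 1)) K V) (v : ℕ → V), l ≠ 0 ∧ NB d b v ∧
      (∀ k, Y (v k) = (l * Q ^ k) • v k) ∧
      (∀ k, X (v k) = (l * Q ^ k)⁻¹ • (v k - v (k + 1))) ∧
      Z (v 0) = l⁻¹ • v 0 ∧
      (∀ k, Z (v (k + 1)) = (l * Q ^ (k + 1))⁻¹ •
        (v (k + 1) - (Q * cc Q d (k + 1)) • v k)) := by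
  obtain ⟨hN, hM, Yi, hYYi, hYiY⟩ := h.isUnit_of_mul hQ hq1
  have hL : Lad Q Y (1 - X * Y) (1 - Y * Z) := by
    refine ⟨fun x => ?_, fun x => ?_, fun x => ?_⟩
    · exact LinearMap.congr_fun h.yn x
    · exact LinearMap.congr_fun h.my x
    · exact h.mn hQ x
  have hXY : ∀ x, X (Y x) = x - (1 - X * Y) x := by
    intro x; simp
  have hZY : ∀ x, Z (Y x) = x - Q • (1 - Y * Z) x := by
    intro x
    have := LinearMap.congr_fun h.zy x
    simpa using this
  set N := 1 - X * Y with hNdef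
  set M := 1 - Y * Z with hMdef
  have : Nontrivial V := by
    apply Module.nontrivial_of_finrank_pos (R := K)
    omega
  -- a vector killed by `M`
  obtain ⟨w, hw, hMw⟩ : ∃ w : V, w ≠ 0 ∧ M w = 0 := by
    by_contra hcon
    push Not at hcon
    obtain ⟨n, hn⟩ := hM
    obtain ⟨x, hx⟩ := exists_ne (0 : V)
    have : ∀ n, (M ^ n) x ≠ 0 := by
      intro n
      induction n with
      | zero => simpa using hx
      | succ n ih =>
        rw [pow_succ', Module.End.mul_apply]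
        exact hcon _ ih
    exact this n (by rw [hn]; rfl)
  obtain ⟨n, hn⟩ := hN
  obtain ⟨w0, l, hw0, hMw0, hYw0⟩ := hL.exists_hw hQ hq1 (q := q) hqQ n w hw hMw
    (by rw [hn]; rfl)
  have hl : l ≠ 0 := by
    intro hl
    rw [hl, zero_smul] at hYw0
    apply hw0
    have := LinearMap.congr_fun hYiY w0
    rw [Module.End.mul_apply, hYw0, map_zero] at this
    exact this.symm
  set v : ℕ → V := fun j => (N ^ j) w0 with hv
  have hv0 : v 0 = w0 := by simp [hv]
  have hNv : ∀ j, N (v j) = v (j + 1) := by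
    intro j; simp only [hv]; rw [pow_succ', Module.End.mul_apply]
  have hYv : ∀ j, Y (v j) = (l * Q ^ j) • v j := by
    intro j
    simp only [hv]
    rw [hL.yn_pow, hYw0, map_smul, smul_smul, mul_comm]
  have hMv : ∀ j, M (v (j + 1)) = (Q⁻¹ * (Q ^ (j + 1) - 1) * (Q ^ j * l ^ 2 - 1)) • v j := by
    intro j
    simp only [hv]
    rw [hL.mn_pow hQ, hMw0, map_zero, smul_zero, zero_add, hYw0, map_smul, hYw0]
    simp only [map_sub, map_smul]
    module
  have hlQ : ∀ j, l * Q ^ j ≠ 0 := fun j => mul_ne_zero hl (pow_ne_zero _ hQ)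
  have hXv : ∀ j, X (v j) = (l * Q ^ j)⁻¹ • (v j - v (j + 1)) := by
    intro j
    have := hXY (v j)
    rw [hYv, map_smul, hNv] at this
    rw [← this, smul_smul, inv_mul_cancel₀ (hlQ j), one_smul]
  have hZv : ∀ j, Z (v j) = (l * Q ^ j)⁻¹ • (v j - Q • M (v j)) := by
    intro j
    have := hZY (v j)
    rw [hYv, map_smul] at this
    rw [← this, smul_smul, inv_mul_cancel₀ (hlQ j), one_smul]
  have hex : ∃ m, v m = 0 := ⟨n, by simp only [hv]; rw [hn]; rfl⟩
  classical
  obtain ⟨m, hm0, hmin⟩ : ∃ m, v m = 0 ∧ ∀ j, j < m → v j ≠ 0 :=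
    ⟨Nat.find hex, Nat.find_spec hex, fun j hj => Nat.find_min hex hj⟩
  have hbig : ∀ j, m ≤ j → v j = 0 := by
    intro j hj
    obtain ⟨k, rfl⟩ := Nat.exists_eq_add_of_le hj
    clear hj
    induction k with
    | zero => exact hm0
    | succ k ih => rw [← add_assoc, ← hNv, ih, map_zero]
  -- the span is everything
  set S := Submodule.span K (Set.range v) with hS
  have hvS : ∀ j, v j ∈ S := fun j => Submodule.subset_span ⟨j, rfl⟩
  have hinv : ∀ f : End K V, (∀ j, f (v j) ∈ S) → ∀ x ∈ S, f x ∈ S := by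
    intro f hf x hx
    have : S ≤ S.comap f := by
      rw [hS, Submodule.span_le]
      rintro _ ⟨j, rfl⟩
      exact hf j
    exact this hx
  have hSM : ∀ j, M (v j) ∈ S := by
    intro j
    match j with
    | 0 => rw [hv0, hMw0]; exact S.zero_mem
    | j + 1 => rw [hMv]; exact S.smul_mem _ (hvS j)
  have hStop : S = ⊤ := by
    have := hirr S ?_ ?_ ?_ ?_
    · rcases this with h1 | h1
      · exfalso
        apply hw0
        have h2 := hvS 0
        rw [h1, Submodule.mem_bot, hv0] at h2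
        exact h2
      · exact h1
    · apply hinv
      intro j
      rw [hXv]
      exact S.smul_mem _ (S.sub_mem (hvS j) (hvS _))
    · apply hinv
      -- descending induction
      have key : ∀ k j, m ≤ j + k → Xi (v j) ∈ S := by
        intro k
        induction k with
        | zero =>
          intro j hj
          rw [hbig j hj, map_zero]; exact S.zero_mem
        | succ k ih =>
          intro j hj
          have h1 : v j = (l * Q ^ j) • X (v j) + v (j + 1) := by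
            rw [hXv, smul_smul, mul_inv_cancel₀ (hlQ j), one_smul]; abel
          have h2 : Xi (X (v j)) = v j := by
            have := LinearMap.congr_fun h.ix (v j)
            exact this
          have h3 : Xi (v j) = (l * Q ^ j) • v j + Xi (v (j + 1)) := by
            conv_lhs => rw [h1]
            rw [map_add, map_smul, h2]
          rw [h3]
          exact S.add_mem (S.smul_mem _ (hvS j)) (ih (j + 1) (by omega))
      intro j
      exact key m j (by omega)
    · apply hinv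
      intro j
      rw [hYv]
      exact S.smul_mem _ (hvS j)
    · apply hinv
      intro j
      rw [hZv]
      exact S.smul_mem _ (S.sub_mem (hvS j) (S.smul_mem _ (hSM j)))
  have hli : LinearIndependent K (fun j : Fin m => v j) := by
    apply Module.End.eigenvectors_linearIndependent' Y (fun j : Fin m => l * Q ^ (j : ℕ))
    · intro i j hij
      simp only at hij
      have hij' := mul_left_cancel₀ hl hij
      apply Fin.ext
      by_contra hne
      rcases lt_or_gt_of_ne hne with hlt | hlt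
      · exact pow_sub_ne hQ hq1 hlt (sub_eq_zero.mpr hij'.symm)
      · exact pow_sub_ne hQ hq1 hlt (sub_eq_zero.mpr hij')
    · intro j
      refine ⟨?_, hmin j j.2⟩
      rw [Module.End.mem_eigenspace_iff]
      exact hYv j
  have hsp : ⊤ ≤ Submodule.span K (Set.range (fun j : Fin m => v j)) := by
    rw [← hStop, hS, Submodule.span_le]
    rintro _ ⟨j, rfl⟩
    by_cases hj : j < m
    · exact Submodule.subset_span ⟨⟨j, hj⟩, rfl⟩
    · rw [hbig j (by omega)]; exact Submodule.zero_mem _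
  have hmd : m = d + 1 := by
    have := Module.finrank_eq_card_basis (Basis.mk hli hsp)
    rw [hfr, Fintype.card_fin] at this
    exact this.symm
  subst hmd
  refine ⟨l, Basis.mk hli hsp, v, hl, ⟨fun i => by rw [Basis.mk_apply], fun i hi => hbig i hi⟩,
    hYv, hXv, ?_, ?_⟩
  · rw [hZv, hv0, hMw0]; simp
  · -- `l² = Q^{-d}`
    have h1 := hMv d
    rw [hm0, map_zero] at h1
    have h2 := (smul_eq_zero.mp h1.symm).resolve_right (hmin d (by omega))
    have h3 : Q ^ d * l ^ 2 - 1 = 0 :=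
      (mul_eq_zero.mp h2).resolve_left
        (mul_ne_zero (inv_ne_zero hQ) (sub_ne_zero.mpr (hq1 (d + 1) (by omega))))
    intro k
    rw [hZv, hMv, smul_smul]
    congr 3
    unfold cc
    have hD : Q ^ d ≠ 0 := pow_ne_zero _ hQ
    have h4 : l ^ 2 = (Q ^ d)⁻¹ := by
      apply eq_inv_of_mul_eq_one_left
      linear_combination h3
    rw [h4, pow_succ Q k]
    field_simp

end Pool.Agent.Lib.MP_32472a_al
end

section

open Module

namespace Pool.Agent.Lib.MP_32472a_al

universe u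

variable {K : Type u} [Field K] {V : Type u} [AddCommGroup V] [Module K V]

theorem aeval_mem {A : End K V} {S : Submodule K V} (hS : ∀ x ∈ S, A x ∈ S)
    (p : Polynomial K) : ∀ x ∈ S, Polynomial.aeval A p x ∈ S := by
  have hpow : ∀ n : ℕ, ∀ x ∈ S, (A ^ n) x ∈ S := by
    intro n
    induction n with
    | zero => intro x hx; simpa using hx
    | succ n ih =>
      intro x hx
      rw [pow_succ', Module.End.mul_apply]
      exact hS _ (ih x hx)
  induction p using Polynomial.induction_on' with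
  | add p q hp hq =>
    intro x hx
    rw [map_add, LinearMap.add_apply]
    exact S.add_mem (hp x hx) (hq x hx)
  | monomial n a =>
    intro x hx
    rw [Polynomial.aeval_monomial, Module.End.mul_apply, Module.algebraMap_end_apply]
    exact S.smul_mem _ (hpow n x hx)

theorem repr_aeval {n : ℕ} (w : Basis (Fin n) K V) {A : End K V} {θ : Fin n → K}
    (hw : ∀ i, A (w i) = θ i • w i) (p : Polynomial K) : ∀ (x : V) (i : Fin n),
    w.repr (Polynomial.aeval A p x) i = p.eval (θ i) * w.repr x i := by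
  have hpow : ∀ m : ℕ, ∀ (x : V) (i : Fin n), w.repr ((A ^ m) x) i = θ i ^ m * w.repr x i := by
    intro m
    induction m with
    | zero => intro x i; simp
    | succ m ih =>
      intro x i
      rw [pow_succ', Module.End.mul_apply, repr_diag w hw, ih]
      ring
  induction p using Polynomial.induction_on' with
  | add p q hp hq =>
    intro x i
    rw [map_add, LinearMap.add_apply, map_add, Finsupp.add_apply, hp, hq, Polynomial.eval_add]
    ring
  | monomial n a =>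
    intro x i
    rw [Polynomial.aeval_monomial, Module.End.mul_apply, Module.algebraMap_end_apply, map_smul,
      Finsupp.smul_apply, hpow, Polynomial.eval_monomial, smul_eq_mul]
    ring

theorem comp_mem {n : ℕ} (w : Basis (Fin n) K V) {A : End K V} {θ : Fin n → K}
    (hw : ∀ i, A (w i) = θ i • w i) (hθ : Function.Injective θ) {S : Submodule K V}
    (hS : ∀ x ∈ S, A x ∈ S) {x : V} (hx : x ∈ S) {i : Fin n} (hi : w.repr x i ≠ 0) :
    w i ∈ S := by
  set p : Polynomial K := ∏ j ∈ Finset.univ.erase i, (Polynomial.X - Polynomial.C (θ j)) with hp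
  have h1 : ∀ k, k ≠ i → p.eval (θ k) = 0 := by
    intro k hk
    rw [hp, Polynomial.eval_prod]
    apply Finset.prod_eq_zero (i := k)
    · simp [hk]
    · simp
  have h2 : p.eval (θ i) ≠ 0 := by
    rw [hp, Polynomial.eval_prod, Finset.prod_ne_zero_iff]
    intro k hk
    rw [Finset.mem_erase] at hk
    rw [Polynomial.eval_sub, Polynomial.eval_X, Polynomial.eval_C, sub_ne_zero]
    intro hh
    exact hk.1 (hθ hh).symm
  have h3 : Polynomial.aeval A p x = (p.eval (θ i) * w.repr x i) • w i := by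
    apply w.repr.injective
    ext k
    rw [repr_aeval w hw, map_smul, Basis.repr_self, Finsupp.smul_apply, smul_eq_mul]
    by_cases hk : k = i
    · subst hk; simp
    · rw [h1 k hk, Finsupp.single_eq_of_ne hk]
      ring
  have h4 := aeval_mem hS p x hx
  rw [h3] at h4
  have h5 := mul_ne_zero h2 hi
  have := S.smul_mem (p.eval (θ i) * w.repr x i)⁻¹ h4
  rwa [smul_smul, inv_mul_cancel₀ h5, one_smul] at this

/-- the pair acts irreducibly -/
theorem pair_irred {Q : K} {d : ℕ} {A A' : End K V} {U W : K} {w : Basis (Fin (d + 1)) K V}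
    (h : Tri Q d A A' U W w) (hinj : ∀ i j, i ≤ d → j ≤ d → cl Q U W i = cl Q U W j → i = j)
    (S : Submodule K V) (hA : ∀ x ∈ S, A x ∈ S) (hA' : ∀ x ∈ S, A' x ∈ S) : S = ⊥ ∨ S = ⊤ := by
  by_cases hS : S = ⊥
  · exact Or.inl hS
  right
  obtain ⟨x, hxS, hx0⟩ := (Submodule.ne_bot_iff S).mp hS
  have hθ : Function.Injective (fun i : Fin (d + 1) => cl Q U W i) := by
    intro i j hij
    exact Fin.ext (hinj i j (by omega) (by omega) hij)
  have hcomp : ∀ {x : V}, x ∈ S → ∀ {i : Fin (d + 1)}, w.repr x i ≠ 0 → w i ∈ S :=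
    fun hx _ hi => comp_mem w (θ := fun i : Fin (d + 1) => cl Q U W i) h.diag hθ hA hx hi
  obtain ⟨i, hi⟩ : ∃ i, w.repr x i ≠ 0 := by
    by_contra hcon
    push Not at hcon
    apply hx0
    apply w.repr.injective
    ext k
    rw [hcon k, map_zero]; rfl
  have hwi := hcomp hxS hi
  have hup : ∀ k (hk : (i : ℕ) + k < d + 1), w ⟨i + k, hk⟩ ∈ S := by
    intro k
    induction k with
    | zero => intro hk; exact hwi
    | succ k ih =>
      intro hk
      exact hcomp (hA' _ (ih (by omega))) (h.adj2 ⟨i + k, by omega⟩ ⟨i + (k + 1), hk⟩ rfl)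
  have htop : w ⟨d, by omega⟩ ∈ S := by
    have := hup (d - i) (by omega)
    have e : (i : ℕ) + (d - i) = d := by omega
    simpa only [e] using this
  have hdown : ∀ k (hk : k ≤ d), w ⟨d - k, by omega⟩ ∈ S := by
    intro k
    induction k with
    | zero => intro hk; exact htop
    | succ k ih =>
      intro hk
      exact hcomp (hA' _ (ih (by omega)))
        (h.adj1 ⟨d - (k + 1), by omega⟩ ⟨d - k, by omega⟩ (by simp only; omega))
  rw [eq_top_iff, ← w.span_eq, Submodule.span_le]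
  rintro _ ⟨j, rfl⟩
  have := hdown (d - j) (by omega)
  have e : d - (d - (j : ℕ)) = j := by omega
  have h9 : w ⟨j, j.2⟩ ∈ S := by simpa only [e] using this
  exact h9

/-- consequence for bidiagonal forms: the off-diagonal coefficients do not vanish -/
theorem s_ne {d : ℕ} {A A' : End K V}
    (hirr : ∀ S : Submodule K V, (∀ x ∈ S, A x ∈ S) → (∀ x ∈ S, A' x ∈ S) → S = ⊥ ∨ S = ⊤)
    {b : Basis (Fin (d + 1)) K V} {v : ℕ → V} (hb : NB d b v) {θ s θ' t : ℕ → K}
    (h : Bi A A' v θ s θ' t) {k : ℕ} (hk : k < d) : s k ≠ 0 := by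
  intro hs
  set S := Submodule.span K (Set.range fun i : Fin (k + 1) => v i) with hS
  have hv : ∀ i, i ≤ k → v i ∈ S := fun i hi => Submodule.subset_span ⟨⟨i, by omega⟩, rfl⟩
  have hinv : ∀ f : End K V, (∀ j, j ≤ k → f (v j) ∈ S) → ∀ x ∈ S, f x ∈ S := by
    intro f hf x hx
    have : S ≤ S.comap f := by
      rw [hS, Submodule.span_le]
      rintro _ ⟨j, rfl⟩
      exact hf j (by omega)
    exact this hx
  have := hirr S (hinv A ?_) (hinv A' ?_)
  · rcases this with h1 | h1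
    · have h2 := hv 0 (by omega)
      rw [h1, Submodule.mem_bot] at h2
      exact hb.v0_ne h2
    · -- `v (k + 1)` is not in the span
      have h2 : S ≤ LinearMap.ker (cf b (k + 1)) := by
        rw [hS, Submodule.span_le]
        rintro _ ⟨j, rfl⟩
        show cf b (k + 1) (v j) = 0
        rw [hb.cf_v, if_neg (by omega)]
      rw [h1] at h2
      have h3 : cf b (k + 1) (v (k + 1)) = 0 := h2 (Submodule.mem_top)
      rw [hb.cf_v, if_pos ⟨rfl, by omega⟩] at h3
      exact one_ne_zero h3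
  · intro j hj
    rw [h.hA]
    rcases lt_or_eq_of_le hj with hj' | hj'
    · exact S.add_mem (S.smul_mem _ (hv j hj)) (S.smul_mem _ (hv _ (by omega)))
    · subst hj'
      rw [hs, zero_smul, add_zero]
      exact S.smul_mem _ (hv _ hj)
  · intro j hj
    match j with
    | 0 => rw [h.hA0]; exact S.smul_mem _ (hv _ hj)
    | j + 1 =>
      rw [h.hA']
      exact S.add_mem (S.smul_mem _ (hv _ hj)) (S.smul_mem _ (hv _ (by omega)))

theorem t_ne {d : ℕ} {A A' : End K V}
    (hirr : ∀ S : Submodule K V, (∀ x ∈ S, A x ∈ S) → (∀ x ∈ S, A' x ∈ S) → S = ⊥ ∨ S = ⊤)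
    {b : Basis (Fin (d + 1)) K V} {v : ℕ → V} (hb : NB d b v) {θ s θ' t : ℕ → K}
    (h : Bi A A' v θ s θ' t) {k : ℕ} (hk : k < d) : t (k + 1) ≠ 0 := by
  intro ht
  set S := Submodule.span K (Set.range fun i : ℕ => v (k + 1 + i)) with hS
  have hv : ∀ i, k + 1 ≤ i → v i ∈ S := fun i hi => Submodule.subset_span ⟨i - (k + 1), by
    simp only; congr 1; omega⟩
  have hinv : ∀ f : End K V, (∀ j, k + 1 ≤ j → f (v j) ∈ S) → ∀ x ∈ S, f x ∈ S := by
    intro f hf x hx
    have : S ≤ S.comap f := by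
      rw [hS, Submodule.span_le]
      rintro _ ⟨j, rfl⟩
      exact hf _ (by omega)
    exact this hx
  have := hirr S (hinv A ?_) (hinv A' ?_)
  · rcases this with h1 | h1
    · have h2 := hv (k + 1) (by omega)
      rw [h1, Submodule.mem_bot] at h2
      have h3 : cf b (k + 1) (v (k + 1)) = 0 := by rw [h2, map_zero]
      rw [hb.cf_v, if_pos ⟨rfl, by omega⟩] at h3
      exact one_ne_zero h3
    · have h2 : S ≤ LinearMap.ker (cf b 0) := by
        rw [hS, Submodule.span_le]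
        rintro _ ⟨j, rfl⟩
        show cf b 0 (v (k + 1 + j)) = 0
        rw [hb.cf_v, if_neg (by omega)]
      rw [h1] at h2
      have h3 : cf b 0 (v 0) = 0 := h2 (Submodule.mem_top)
      rw [hb.cf_v, if_pos ⟨rfl, by omega⟩] at h3
      exact one_ne_zero h3
  · intro j hj
    rw [h.hA]
    exact S.add_mem (S.smul_mem _ (hv j hj)) (S.smul_mem _ (hv _ (by omega)))
  · intro j hj
    match j, hj with
    | j + 1, hj =>
      rw [h.hA']
      rcases eq_or_lt_of_le hj with hj' | hj'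
      · have : j = k := by omega
        subst this
        rw [ht, zero_smul, add_zero]
        exact S.smul_mem _ (hv _ hj)
      · exact S.add_mem (S.smul_mem _ (hv _ hj)) (S.smul_mem _ (hv _ (by omega)))

end Pool.Agent.Lib.MP_32472a_al
end

section

open Module

namespace Pool.Agent.Lib.MP_32472a_al

universe u

variable {K : Type u} [Field K] {V : Type u} [AddCommGroup V] [Module K V]

theorem rels_of_rep {q : K} (hq : q ≠ 0) (hqq : q - q⁻¹ ≠ 0) (ρ : Uq q →ₐ[K] End K V) :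
    Rels (q ^ 2) (ρ (gen q .X)) (ρ (gen q .Xinv)) (ρ (gen q .Y)) (ρ (gen q .Z)) := by
  have rel : ∀ a b : End K V, (q - q⁻¹)⁻¹ • (q • a - q⁻¹ • b) = 1 →
      q • a - q⁻¹ • b = (q - q⁻¹) • (1 : End K V) := by
    intro a b hab
    rw [← hab, smul_smul, mul_inv_cancel₀ hqq, one_smul]
  have r1 := congrArg ρ (RingQuot.mkAlgHom_rel K (Rel.x_xinv (q := q)))
  have r2 := congrArg ρ (RingQuot.mkAlgHom_rel K (Rel.xinv_x (q := q)))
  have r3 := congrArg ρ (RingQuot.mkAlgHom_rel K (Rel.xy (q := q)))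
  have r4 := congrArg ρ (RingQuot.mkAlgHom_rel K (Rel.yz (q := q)))
  have r5 := congrArg ρ (RingQuot.mkAlgHom_rel K (Rel.zx (q := q)))
  simp only [map_mul, map_sub, map_smul, map_one] at r1 r2 r3 r4 r5
  have r3' : q • (ρ (gen q .X) * ρ (gen q .Y)) - q⁻¹ • (ρ (gen q .Y) * ρ (gen q .X)) =
    (q - q⁻¹) • (1 : End K V) := rel _ _ r3
  have r4' : q • (ρ (gen q .Y) * ρ (gen q .Z)) - q⁻¹ • (ρ (gen q .Z) * ρ (gen q .Y)) =
    (q - q⁻¹) • (1 : End K V) := rel _ _ r4
  have r5' : q • (ρ (gen q .Z) * ρ (gen q .X)) - q⁻¹ • (ρ (gen q .X) * ρ (gen q .Z)) =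
    (q - q⁻¹) • (1 : End K V) := rel _ _ r5
  refine ⟨r1, r2, ?_, ?_, ?_⟩
  · have : ρ (gen q .Y) * ρ (gen q .X) =
        q • (q • (ρ (gen q .X) * ρ (gen q .Y)) - (q - q⁻¹) • (1 : End K V)) := by
      rw [← r3', sub_sub_cancel, smul_smul, mul_inv_cancel₀ hq, one_smul]
    rw [this]
    match_scalars <;> field_simp; ring
  · have : ρ (gen q .Z) * ρ (gen q .Y) =
        q • (q • (ρ (gen q .Y) * ρ (gen q .Z)) - (q - q⁻¹) • (1 : End K V)) := by
      rw [← r4', sub_sub_cancel, smul_smul, mul_inv_cancel₀ hq, one_smul]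
    rw [this]
    match_scalars <;> field_simp; ring
  · have : ρ (gen q .Z) * ρ (gen q .X) =
        q⁻¹ • ((q - q⁻¹) • (1 : End K V) + q⁻¹ • (ρ (gen q .X) * ρ (gen q .Z))) := by
      rw [← r5', sub_add_cancel, smul_smul, inv_mul_cancel₀ hq, one_smul]
    rw [this]
    match_scalars <;> field_simp

theorem irr_of_rep {q : K} (ρ : Uq q →ₐ[K] End K V) (hρ : IsIrred ρ) (W : Submodule K V)
    (hX : ∀ x ∈ W, ρ (gen q .X) x ∈ W) (hXi : ∀ x ∈ W, ρ (gen q .Xinv) x ∈ W)
    (hY : ∀ x ∈ W, ρ (gen q .Y) x ∈ W) (hZ : ∀ x ∈ W, ρ (gen q .Z) x ∈ W) :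
    W = ⊥ ∨ W = ⊤ := by
  apply hρ
  intro a
  obtain ⟨f, rfl⟩ := RingQuot.mkAlgHom_surjective K (Rel q) a
  induction f using FreeAlgebra.induction with
  | grade0 r =>
    intro w hw
    rw [AlgHom.commutes, AlgHom.commutes, Module.algebraMap_end_apply]
    exact W.smul_mem _ hw
  | grade1 g =>
    cases g with
    | X => exact hX
    | Xinv => exact hXi
    | Y => exact hY
    | Z => exact hZ
  | mul a b ha hb =>
    intro w hw
    rw [map_mul, map_mul, Module.End.mul_apply]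
    exact ha _ (hb _ hw)
  | add a b ha hb =>
    intro w hw
    rw [map_add, map_add, LinearMap.add_apply]
    exact W.add_mem (ha _ hw) (hb _ hw)

theorem of_span4 {E : Type u} [AddCommGroup E] [Module K E] {p₁ p₂ p₃ p₄ x : E}
    (h : x ∈ Submodule.span K {p₁, p₂, p₃, p₄}) :
    ∃ a b c e : K, x = a • p₁ + b • p₂ + c • p₃ + e • p₄ := by
  rw [Submodule.mem_span_insert] at h
  obtain ⟨a, y, hy, rfl⟩ := h
  rw [Submodule.mem_span_insert] at hy
  obtain ⟨b, z, hz, rfl⟩ := hy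
  rw [Submodule.mem_span_pair] at hz
  obtain ⟨c, e, rfl⟩ := hz
  exact ⟨a, b, c, e, by abel⟩

/-- the shape of the pair in a basis adapted to a module structure -/
theorem shape {q : K} (hq : q ≠ 0) (hq1 : ∀ n, 0 < n → (q ^ 2) ^ n ≠ 1) {d : ℕ}
    [Module.Finite K V] (hfr : Module.finrank K V = d + 1) {A A' : End K V}
    (h : HasUqStructure q A A') :
    ∃ (η U W η' U' W' a3 b3 : K) (b : Basis (Fin (d + 1)) K V) (v : ℕ → V), NB d b v ∧
      Bi A A' v (fun i => η + cl (q ^ 2) U W i) (fun i => -(U / (q ^ 2) ^ i + a3))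
        (fun i => η' + cl (q ^ 2) U' W' i)
        (fun i => -(U' * q ^ 2 / (q ^ 2) ^ i + b3) * cc (q ^ 2) d i) := by
  have hqq : q - q⁻¹ ≠ 0 := by
    intro h
    apply hq1 1 one_pos
    rw [pow_one]
    have h' : q * (q - q⁻¹) = 0 := by rw [h, mul_zero]
    rw [mul_sub, mul_inv_cancel₀ hq] at h'
    linear_combination h'
  obtain ⟨ρ, hρ, hA, hA'⟩ := h
  have hrel := rels_of_rep hq hqq ρ
  obtain ⟨l, b, v, hl, hb, hYv, hXv, hZv0, hZv⟩ :=
    classify rfl (pow_ne_zero 2 hq) hq1 hfr hrel (irr_of_rep ρ hρ)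
  rw [map_mul] at hA hA'
  obtain ⟨a0, a1, a2, a3, hA⟩ := of_span4 hA
  obtain ⟨b0, b1, b2, b3, hA'⟩ := of_span4 hA'
  refine ⟨a0 + a3, a1 / l, a2 * l, b0 + b3, b2 / l, b1 * l, a3, b3, b, v, hb, ?_, ?_, ?_⟩
  · intro i
    rw [hA]
    simp only [LinearMap.add_apply, LinearMap.smul_apply, Module.End.mul_apply, hYv, hXv,
      map_smul, Module.End.one_apply, cl]
    have h1 : (q ^ 2) ^ i ≠ 0 := pow_ne_zero _ (pow_ne_zero _ hq)
    match_scalars
    · field_simp
      ring
    · field_simp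
      ring
  · rw [hA']
    simp only [LinearMap.add_apply, LinearMap.smul_apply, Module.End.mul_apply, hYv, hZv0,
      map_smul, Module.End.one_apply, cl]
    match_scalars
    simp only [pow_zero]
    field_simp
    ring
  · intro i
    rw [hA']
    simp only [LinearMap.add_apply, LinearMap.smul_apply, Module.End.mul_apply, hYv, hZv,
      map_smul, map_sub, Module.End.one_apply, cl]
    have h1 : (q ^ 2) ^ i ≠ 0 := pow_ne_zero _ (pow_ne_zero _ hq)
    have h2 : (q ^ 2) ^ (i + 1) = q ^ 2 * (q ^ 2) ^ i := pow_succ' _ _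
    match_scalars
    · rw [h2]
      field_simp
      ring
    · rw [h2]
      field_simp
      ring

end Pool.Agent.Lib.MP_32472a_al
end

section

open Module

namespace Pool.Agent.Lib.MP_32472a_al

universe u

variable {K : Type u} [Field K] {V : Type u} [AddCommGroup V] [Module K V]

theorem cf_eq_repr {d : ℕ} (b : Basis (Fin (d + 1)) K V) (i : Fin (d + 1)) (x : V) :
    cf b i x = b.repr x i := by
  unfold cf
  rw [dif_pos i.2]; rfl

theorem trace_A {d : ℕ} {b : Basis (Fin (d + 1)) K V} {v : ℕ → V} (hb : NB d b v)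
    {A A' : End K V} {θ s θ' t : ℕ → K} (h : Bi A A' v θ s θ' t) :
    LinearMap.trace K V A = ∑ i ∈ Finset.range (d + 1), θ i := by
  rw [LinearMap.trace_eq_matrix_trace K b, Matrix.trace, ← Fin.sum_univ_eq_sum_range]
  apply Finset.sum_congr rfl
  intro i _
  rw [Matrix.diag_apply, LinearMap.toMatrix_apply, h.cf_A hb, if_pos rfl]

theorem trace_A' {d : ℕ} {b : Basis (Fin (d + 1)) K V} {v : ℕ → V} (hb : NB d b v)
    {A A' : End K V} {θ s θ' t : ℕ → K} (h : Bi A A' v θ s θ' t) :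
    LinearMap.trace K V A' = ∑ i ∈ Finset.range (d + 1), θ' i := by
  rw [LinearMap.trace_eq_matrix_trace K b, Matrix.trace, ← Fin.sum_univ_eq_sum_range]
  apply Finset.sum_congr rfl
  intro i _
  rw [Matrix.diag_apply, LinearMap.toMatrix_apply, ← cf_eq_repr, hb.hb]
  obtain ⟨i, hi⟩ := i
  match i, hi with
  | 0, hi =>
    simp only
    rw [h.hA0, map_smul, hb.cf_v]
    simp
  | i + 1, hi =>
    simp only
    rw [h.hA', map_add, map_smul, map_smul, hb.cf_v, hb.cf_v, if_pos ⟨rfl, hi⟩,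
      if_neg (by omega)]
    simp

theorem sum_cl {Q : K} (hQ : Q ≠ 0) (d : ℕ) (U W : K) :
    ∑ i ∈ Finset.range (d + 1), cl Q U W i =
      (U + W * Q ^ d) / Q ^ d * ∑ i ∈ Finset.range (d + 1), Q ^ i := by
  have h1 : ∑ i ∈ Finset.range (d + 1), U / Q ^ i =
      U / Q ^ d * ∑ i ∈ Finset.range (d + 1), Q ^ i := by
    rw [← Finset.sum_range_reflect, Finset.mul_sum]
    apply Finset.sum_congr rfl
    intro i hi
    rw [Finset.mem_range] at hi
    have e : Q ^ d = Q ^ (d + 1 - 1 - i) * Q ^ i := by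
      rw [← pow_add]; congr 1; omega
    rw [e]
    have h2 : Q ^ (d + 1 - 1 - i) ≠ 0 := pow_ne_zero _ hQ
    have h3 : Q ^ i ≠ 0 := pow_ne_zero _ hQ
    field_simp
  unfold cl
  rw [Finset.sum_add_distrib, h1, ← Finset.mul_sum]
  have hD : Q ^ d ≠ 0 := pow_ne_zero _ hQ
  field_simp

theorem sum_pow_ne {Q : K} (hQ1 : ∀ n, 0 < n → Q ^ n ≠ 1) (d : ℕ) :
    ∑ i ∈ Finset.range (d + 1), Q ^ i ≠ 0 := by
  intro h
  have := geom_sum_mul Q (d + 1)
  rw [h, zero_mul] at this
  exact hQ1 (d + 1) (by omega) (sub_eq_zero.mp this.symm)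

/-- split sequence in a module basis, compared with the closed form -/
theorem phi_hat {Q : K} (hQ : Q ≠ 0) (d : ℕ) (U W U' W' a3 b3 : K) (j : ℕ) :
    (U * Q / Q ^ j + a3) * (U' * Q / Q ^ j + b3) * cc Q d j =
      ph Q d U W U' W' (U * b3 + U' * a3) j + cc Q d j * (a3 * b3 - W * W' * Q ^ d * Q) := by
  unfold ph cc
  have hD : Q ^ d ≠ 0 := pow_ne_zero _ hQ
  have hy : Q ^ j ≠ 0 := pow_ne_zero _ hQ
  generalize Q ^ d = D at *
  generalize Q ^ j = y at *
  field_simp
  ring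

theorem cc_diff {Q : K} (hQ : Q ≠ 0) (d : ℕ) :
    (cc Q d 1 - (Q + Q⁻¹) * cc Q d 2 + cc Q d 3) - (cc Q d 0 - (Q + Q⁻¹) * cc Q d 1 + cc Q d 2) =
      (Q ^ 2 - 1) * (Q ^ 3 - 1) * (Q - 1) / (Q ^ d * Q ^ 2) := by
  unfold cc
  have hD : Q ^ d ≠ 0 := pow_ne_zero _ hQ
  generalize Q ^ d = D at *
  field_simp
  ring

theorem compare {Q : K} (hQ : Q ≠ 0) (hQ1 : ∀ n, 0 < n → Q ^ n ≠ 1) {d : ℕ} (hd : 2 ≤ d)
    {A A' : End K V} {U W U' W' r ω ζ ρ₂ ω₂ ζ₂ : K}
    (hω : ω = om Q d U W U' W' r) (hρ₂ : ρ₂ = U' * W' * (4 - (Q + Q⁻¹) ^ 2))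
    (aw1 : SS (Q + Q⁻¹) (rh Q U W) A A' = ω • A + ζ • 1)
    (aw2 : SS (Q + Q⁻¹) ρ₂ A' A = ω₂ • A' + ζ₂ • 1)
    {η η' Uh Wh Uh' Wh' a3 b3 : K} {b : Basis (Fin (d + 1)) K V} {v : ℕ → V} (hb : NB d b v)
    {θ s θ' t : ℕ → K} (h : Bi A A' v θ s θ' t)
    (hθ : ∀ i, θ i = η + cl Q Uh Wh i) (hθ' : ∀ i, θ' i = η' + cl Q Uh' Wh' i)
    (hs : ∀ i, s i = -(Uh / Q ^ i + a3)) (ht : ∀ i, t i = -(Uh' * Q / Q ^ i + b3) * cc Q d i)
    (hs0 : ∀ i, i < d → s i ≠ 0) (ht0 : ∀ i, i < d → t (i + 1) ≠ 0)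
    (tr1 : ∑ i ∈ Finset.range (d + 1), θ i = ∑ i ∈ Finset.range (d + 1), cl Q U W i)
    (tr2 : ∑ i ∈ Finset.range (d + 1), θ' i = ∑ i ∈ Finset.range (d + 1), cl Q U' W' i) :
    ∃ t : K, t ^ 2 - r * t + U * U' * (W * W') * (Q ^ d * Q) = 0 := by
  have hD : Q ^ d ≠ 0 := pow_ne_zero _ hQ
  have h1 : Q - 1 ≠ 0 := by
    have := hQ1 1 one_pos
    rw [pow_one] at this
    exact sub_ne_zero.mpr this
  have hβ : 2 - (Q + Q⁻¹) ≠ 0 := by
    have : 2 - (Q + Q⁻¹) = -(Q - 1) ^ 2 / Q := by field_simp; ring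
    rw [this]
    exact div_ne_zero (neg_ne_zero.mpr (pow_ne_zero _ h1)) hQ
  have h2 : Q ^ 2 - 1 ≠ 0 := sub_ne_zero.mpr (hQ1 2 two_pos)
  have hβ2 : 4 - (Q + Q⁻¹) ^ 2 ≠ 0 := by
    have : 4 - (Q + Q⁻¹) ^ 2 = -(Q ^ 2 - 1) ^ 2 / Q ^ 2 := by field_simp; ring
    rw [this]
    exact div_ne_zero (neg_ne_zero.mpr (pow_ne_zero _ h2)) (pow_ne_zero _ hQ)
  have d1 : 0 < d := by omega
  have d2 : 1 < d := by omega
  have d3 : 0 < d + 1 := by omega
  have d4 : 1 < d + 1 := by omega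
  have d5 : 2 < d + 1 := by omega
  have g0 := h.hA 0
  have g1 := h.hA 1
  have g2 := h.hA 2
  have f0 := h.hA0
  have f1 := h.hA' 0
  have f2 := h.hA' 1
  have f3 := h.hA' 2
  simp only [Nat.zero_add, Nat.reduceAdd] at g0 g1 g2 f1 f2 f3
  -- the relations at `v 0` and `v 1`
  have E0 := LinearMap.congr_fun aw1 (v 0)
  rw [h.S_zero] at E0
  simp only [LinearMap.add_apply, LinearMap.smul_apply, Module.End.one_apply, g0] at E0
  have E1 := LinearMap.congr_fun aw1 (v 1)
  have S1 := h.S_succ (β := Q + Q⁻¹) (ρ := rh Q U W) 0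
  simp only [Nat.zero_add] at S1
  rw [S1] at E1
  simp only [LinearMap.add_apply, LinearMap.smul_apply, Module.End.one_apply, g1] at E1
  -- `η' = 0`
  have hη' : η' = 0 := by
    have e := congrArg (cf b 2) E0
    simp only [map_add, map_smul, hb.cf_v, smul_eq_mul] at e
    simp [d5, hs0 0 d1, hs0 1 d2] at e
    rw [hθ', hθ', hθ'] at e
    have c0 := cl_rec hQ Uh' Wh' 0
    simp only [Nat.zero_add] at c0
    have e2 : (2 - (Q + Q⁻¹)) * η' = 0 := by linear_combination e - c0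
    exact (mul_eq_zero.mp e2).resolve_left hβ
  -- `η = 0`
  have F2 := LinearMap.congr_fun aw2 (v 2)
  simp only [SS, LinearMap.sub_apply, LinearMap.add_apply, LinearMap.smul_apply,
    Module.End.mul_apply, g0, g1, g2, f1, f2, f3, map_add, map_smul, Module.End.one_apply] at F2
  have hη : η = 0 := by
    have e := congrArg (cf b 0) F2
    simp only [map_add, map_sub, map_smul, hb.cf_v, smul_eq_mul] at e
    simp [d3] at e
    rw [hθ, hθ, hθ] at e
    have c0 := cl_rec hQ Uh Wh 0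
    simp only [Nat.zero_add] at c0
    have e2 : (t 1 * t 2) * ((2 - (Q + Q⁻¹)) * η) = 0 := by linear_combination e - t 1 * t 2 * c0
    exact (mul_eq_zero.mp ((mul_eq_zero.mp e2).resolve_left
      (mul_ne_zero (ht0 0 d1) (ht0 1 d2)))).resolve_left hβ
  subst hη hη'
  -- `Uh' Wh' = U' W'`
  have F0 := LinearMap.congr_fun aw2 (v 0)
  simp only [SS, LinearMap.sub_apply, LinearMap.add_apply, LinearMap.smul_apply,
    Module.End.mul_apply, g0, f0, f1, map_add, map_smul, Module.End.one_apply] at F0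
  have hUW' : Uh' * Wh' = U' * W' := by
    have e := congrArg (cf b 1) F0
    simp only [map_add, map_sub, map_smul, hb.cf_v, smul_eq_mul] at e
    simp [d4] at e
    rw [hθ', hθ', hρ₂] at e
    have c0 := P_adj hQ Uh' Wh' 0
    simp only [Nat.zero_add, rh] at c0
    have e2 : s 0 * ((Uh' * Wh' - U' * W') * (4 - (Q + Q⁻¹) ^ 2)) = 0 := by
      linear_combination e - s 0 * c0
    have e3 := (mul_eq_zero.mp ((mul_eq_zero.mp e2).resolve_left (hs0 0 d1))).resolve_right hβ2
    exact sub_eq_zero.mp e3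
  have hUW : Uh * Wh = U * W := by
    have e := congrArg (cf b 0) E1
    simp only [map_add, map_smul, hb.cf_v, smul_eq_mul] at e
    simp [d3, ht0 0 d1] at e
    rw [hθ, hθ] at e
    have c0 := P_adj hQ Uh Wh 0
    simp only [Nat.zero_add, rh] at c0
    simp only [rh] at e
    have e2 : (Uh * Wh - U * W) * (4 - (Q + Q⁻¹) ^ 2) = 0 := by
      linear_combination e - c0
    exact sub_eq_zero.mp ((mul_eq_zero.mp e2).resolve_right hβ2)
  -- the third coefficients
  set rr := Uh * b3 + Uh' * a3 with hrr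
  set δ := a3 * b3 - Wh * Wh' * Q ^ d * Q with hδ
  have p1 : s 0 * t 1 = ph Q d Uh Wh Uh' Wh' rr 1 + cc Q d 1 * δ := by
    rw [← phi_hat hQ, hs, ht]
    simp only [pow_zero, pow_one]
    field_simp
  have p2 : s 1 * t 2 = ph Q d Uh Wh Uh' Wh' rr 2 + cc Q d 2 * δ := by
    rw [← phi_hat hQ, hs, ht]
    simp only [pow_one]
    field_simp
  have p3 : s 2 * t 3 = ph Q d Uh Wh Uh' Wh' rr 3 + cc Q d 3 * δ := by
    rw [← phi_hat hQ, hs, ht]
    field_simp
  have C0 := Cc_ph hQ d Uh Wh Uh' Wh' rr 0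
  have C1 := Cc_ph hQ d Uh Wh Uh' Wh' rr 1
  simp only [Cc, ph_zero, Nat.zero_add, Nat.reduceAdd] at C0 C1
  have k0 : om Q d Uh Wh Uh' Wh' rr +
      δ * (cc Q d 0 - (Q + Q⁻¹) * cc Q d 1 + cc Q d 2) = ω := by
    have e := congrArg (cf b 1) E0
    simp only [map_add, map_smul, hb.cf_v, smul_eq_mul] at e
    simp [d4] at e
    rw [hθ, hθ, hθ', hθ', p1, p2] at e
    have e2 : s 0 * (om Q d Uh Wh Uh' Wh' rr +
      δ * (cc Q d 0 - (Q + Q⁻¹) * cc Q d 1 + cc Q d 2) - ω) = 0 := by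
      rw [cc_zero]
      linear_combination e - s 0 * C0
    exact sub_eq_zero.mp ((mul_eq_zero.mp e2).resolve_left (hs0 0 d1))
  have k1 : om Q d Uh Wh Uh' Wh' rr +
      δ * (cc Q d 1 - (Q + Q⁻¹) * cc Q d 2 + cc Q d 3) = ω := by
    have e := congrArg (cf b 2) E1
    simp only [map_add, map_smul, hb.cf_v, smul_eq_mul] at e
    simp [d5] at e
    rw [hθ, hθ, hθ', hθ', p1, p2, p3] at e
    have e2 : s 1 * (om Q d Uh Wh Uh' Wh' rr +
      δ * (cc Q d 1 - (Q + Q⁻¹) * cc Q d 2 + cc Q d 3) - ω) = 0 := by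
      linear_combination e - s 1 * C1
    exact sub_eq_zero.mp ((mul_eq_zero.mp e2).resolve_left (hs0 1 d2))
  have hδ0 : δ = 0 := by
    have e : δ * ((Q ^ 2 - 1) * (Q ^ 3 - 1) * (Q - 1) / (Q ^ d * Q ^ 2)) = 0 := by
      rw [← cc_diff hQ d]
      linear_combination k1 - k0
    refine (mul_eq_zero.mp e).resolve_right ?_
    exact div_ne_zero (mul_ne_zero (mul_ne_zero h2 (sub_ne_zero.mpr (hQ1 3 (by omega)))) h1)
      (mul_ne_zero hD (pow_ne_zero _ hQ))
  rw [hδ0, zero_mul, add_zero] at k0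
  -- traces
  have hsum := sum_pow_ne hQ1 d
  have t1 : Uh + Wh * Q ^ d = U + W * Q ^ d := by
    have e : ∑ i ∈ Finset.range (d + 1), θ i = ∑ i ∈ Finset.range (d + 1), cl Q Uh Wh i :=
      Finset.sum_congr rfl (fun i _ => by rw [hθ, zero_add])
    rw [e, sum_cl hQ, sum_cl hQ] at tr1
    have := mul_right_cancel₀ hsum tr1
    field_simp at this
    linear_combination this
  have t2 : Uh' + Wh' * Q ^ d = U' + W' * Q ^ d := by
    have e : ∑ i ∈ Finset.range (d + 1), θ' i = ∑ i ∈ Finset.range (d + 1), cl Q Uh' Wh' i :=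
      Finset.sum_congr rfl (fun i _ => by rw [hθ', zero_add])
    rw [e, sum_cl hQ, sum_cl hQ] at tr2
    have := mul_right_cancel₀ hsum tr2
    field_simp at this
    linear_combination this
  have hr : rr = r := by
    rw [hω] at k0
    unfold om at k0
    rw [t1, t2] at k0
    have e1 := mul_left_cancel₀ hβ k0
    have h3 : 1 + 1 / (Q ^ d * Q) ≠ 0 := by
      intro h4
      have h5 : Q ^ (d + 1) = -1 := by
        rw [pow_succ]
        field_simp at h4
        linear_combination h4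
      apply hQ1 ((d + 1) * 2) (by omega)
      rw [pow_mul, h5]; ring
    have e2 : (1 + 1 / (Q ^ d * Q)) * (rr - r) = 0 := by linear_combination -e1
    exact sub_eq_zero.mp ((mul_eq_zero.mp e2).resolve_left h3)
  refine ⟨Uh' * a3, ?_⟩
  rw [← hr, hrr]
  have e5 : U * U' * (W * W') * (Q ^ d * Q) = (Uh * Wh) * (Uh' * Wh') * (Q ^ d * Q) := by
    rw [hUW, hUW']; ring
  rw [e5]
  rw [hδ] at hδ0
  linear_combination -Uh * Uh' * hδ0

end Pool.Agent.Lib.MP_32472a_al
end

section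

open Module

namespace Pool.Agent.Lib.MP_32472a_al

universe u

variable {K : Type u} [Field K]

section
variable {V : Type u} [AddCommGroup V] [Module K V]

theorem Tri.irredTridiag {Q : K} {d : ℕ} {A A' : End K V} {U W : K}
    {w : Basis (Fin (d + 1)) K V} (h : Tri Q d A A' U W w) :
    IrredTridiag (LinearMap.toMatrix w w A') := by
  constructor
  · intro i j hij
    rw [LinearMap.toMatrix_apply, LinearMap.toMatrix_apply]
    exact ⟨h.far1 i j hij, h.far2 i j hij⟩
  · intro i j hij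
    rw [LinearMap.toMatrix_apply, LinearMap.toMatrix_apply]
    exact ⟨h.adj1 i j hij, h.adj2 i j hij⟩

theorem Tri.isDiag {Q : K} {d : ℕ} {A A' : End K V} {U W : K}
    {w : Basis (Fin (d + 1)) K V} (h : Tri Q d A A' U W w) :
    (LinearMap.toMatrix w w A).IsDiag := by
  intro i j hij
  rw [LinearMap.toMatrix_apply, h.diag]
  simp [hij.symm]

theorem Tri.isStdOrdering {Q : K} {d : ℕ} {A A' : End K V} {U W : K}
    {w : Basis (Fin (d + 1)) K V} (h : Tri Q d A A' U W w) :
    IsStdOrdering d A A' (fun i => cl Q U W i) :=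
  ⟨w, h.diag, h.irredTridiag⟩

end

theorem betaRec_cl {Q : K} (hQ : Q ≠ 0) (d : ℕ) (U W : K) :
    BetaRec d (Q + Q⁻¹) (fun i : Fin (d + 1) => cl Q U W i) := by
  intro i h
  have c0 := cl_rec hQ U W i
  have c1 := cl_rec hQ U W (i + 1)
  simp only [Nat.add_assoc, Nat.reduceAdd] at c0 c1 ⊢
  linear_combination c0 - c1

/-- a pair in split form with given parameters -/
theorem exists_split (Q : K) (d : ℕ) (U W U' W' r : K) :
    ∃ (A A' : End K (Fin (d + 1) → K)) (b : Basis (Fin (d + 1)) K (Fin (d + 1) → K))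
      (v : ℕ → (Fin (d + 1) → K)), Split Q d A A' U W U' W' r b v := by
  set b := Pi.basisFun K (Fin (d + 1)) with hbdef
  set v : ℕ → (Fin (d + 1) → K) := fun i => if h : i < d + 1 then b ⟨i, h⟩ else 0 with hv
  have hb : NB d b v := by
    refine ⟨fun i => ?_, fun i hi => ?_⟩
    · simp only [hv]; rw [dif_pos i.2]
    · simp only [hv]; rw [dif_neg (by omega)]
  refine ⟨b.constr K (fun i => cl Q U W i • v i + v (i + 1)),
    b.constr K (fun i => match (i : ℕ) with
      | 0 => cl Q U' W' 0 • v 0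
      | i + 1 => cl Q U' W' (i + 1) • v (i + 1) + ph Q d U W U' W' r (i + 1) • v i), b, v, hb,
    ?_, ?_, ?_⟩
  · intro k
    by_cases hk : k < d + 1
    · have e : v k = b ⟨k, hk⟩ := (hb.hb ⟨k, hk⟩).symm
      rw [e, Basis.constr_basis, one_smul, e]
    · rw [hb.hz k (by omega), hb.hz (k + 1) (by omega)]; simp
  · have e : v 0 = b ⟨0, by omega⟩ := (hb.hb ⟨0, by omega⟩).symm
    rw [e, Basis.constr_basis]
  · intro k
    by_cases hk : k + 1 < d + 1
    · have e : v (k + 1) = b ⟨k + 1, hk⟩ := (hb.hb ⟨k + 1, hk⟩).symm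
      rw [e, Basis.constr_basis]
      show cl Q U' W' (k + 1) • v (k + 1) + ph Q d U W U' W' r (k + 1) • v k = _
      rw [e]
    · rw [hb.hz (k + 1) (by omega), map_zero, smul_zero, zero_add]
      by_cases hk2 : k = d
      · subst hk2
        rw [ph_top, zero_smul]
      · rw [hb.hz k (by omega), smul_zero]

/-- a convenient scalar -/
theorem exists_s {Q : K} (hQ : Q ≠ 0) (hQ1 : ∀ n, 0 < n → Q ^ n ≠ 1) {d : ℕ} (hd : 2 ≤ d)
    {b : K} (hb : b ≠ 0) :
    ∃ s : K, s ≠ 0 ∧ ∀ k, 1 ≤ k → k ≤ 2 * d - 1 → b * Q ^ k ≠ (Q ^ d) ^ 3 * Q * s ^ 2 := by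
  by_cases h : ∀ k, 1 ≤ k → k ≤ 2 * d - 1 → b * Q ^ k ≠ (Q ^ d) ^ 3 * Q * 1 ^ 2
  · exact ⟨1, one_ne_zero, h⟩
  · push Not at h
    obtain ⟨k0, h1, h2, h3⟩ := h
    refine ⟨Q ^ d, pow_ne_zero _ hQ, fun k hk1 hk2 hk => ?_⟩
    have e : b * Q ^ k = b * Q ^ (k0 + 2 * d) := by
      rw [hk, pow_add, ← mul_assoc, h3]; ring
    have e2 := mul_left_cancel₀ hb e
    exact pow_sub_ne hQ hQ1 (show k < k0 + 2 * d by omega) (sub_eq_zero.mpr e2.symm)

theorem negative {q : K} (hq : q ≠ 0) (hq1 : ∀ n, 0 < n → q ^ n ≠ 1) {d : ℕ} (hd : 2 ≤ d)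
    {a b0 : K} (hab : ∀ t : K, t ^ 2 + a * t + b0 ≠ 0) : ¬ Q1Holds K q d := by
  intro hQ1h
  have hQ : q ^ 2 ≠ 0 := pow_ne_zero _ hq
  have hQ1 : ∀ n, 0 < n → (q ^ 2) ^ n ≠ 1 := by
    intro n hn
    rw [← pow_mul]
    exact hq1 _ (by omega)
  have hb0 : b0 ≠ 0 := by
    intro h
    apply hab 0
    rw [h]; ring
  obtain ⟨s, hs, hsk⟩ := exists_s hQ hQ1 hd hb0
  set Q := q ^ 2 with hQdef
  have hD : Q ^ d ≠ 0 := pow_ne_zero _ hQ
  set U' := b0 / (Q ^ d * Q * s) with hU'
  obtain ⟨A, A', b, v, hsp⟩ := exists_split Q d 1 1 U' s (-a)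
  have hroot : ∀ t : K, t ^ 2 - (-a) * t + 1 * U' * (1 * s) * (Q ^ d * Q) ≠ 0 := by
    intro t ht
    apply hab t
    rw [← ht, hU']
    field_simp
    ring
  obtain ⟨w, hw⟩ := tri_of_split hQ hQ1 hsp (by
    intro k hk _ h
    rw [one_mul] at h
    exact hQ1 k (by omega) h.symm) hroot
  obtain ⟨b', v', hsp'⟩ := hsp.swap hQ (fun k hk => ph_ne_of_noroot hQ hQ1 hroot hk)
  obtain ⟨e, he⟩ := tri_of_split hQ hQ1 hsp' (by
    intro k hk1 hk2 h
    apply hsk k hk1 hk2
    rw [hU'] at h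
    field_simp at h
    linear_combination -h) (by
    intro t ht
    apply hroot t
    rw [← ht]
    field_simp)
  have hstr := hQ1h (Fin (d + 1) → K) A A' ⟨⟨e, he.irredTridiag, he.isDiag⟩,
    ⟨w, hw.irredTridiag, hw.isDiag⟩⟩ ⟨⟨_, hw.isStdOrdering, by
      rw [inv_pow]; exact betaRec_cl hQ d _ _⟩,
      ⟨_, he.isStdOrdering, by rw [inv_pow]; exact betaRec_cl hQ d _ _⟩⟩
  obtain ⟨η, Uh, Wh, η', Uh', Wh', a3, b3, bb, vv, hbb, hbi⟩ :=
    shape hq hQ1 (d := d) (by simp) hstr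
  have hirr := pair_irred hw (cl_inj hQ hQ1 (by
    intro k hk _ h
    rw [one_mul] at h
    exact hQ1 k (by omega) h.symm))
  obtain ⟨t, ht⟩ := compare hQ hQ1 hd rfl rfl (hsp.aw hQ) (by
      have := hsp'.aw hQ
      have e1 : rh Q (s * Q ^ d) (U' / Q ^ d) = U' * s * (4 - (Q + Q⁻¹) ^ 2) := by
        unfold rh
        field_simp
      rw [e1] at this
      exact this) hbb hbi (fun _ => rfl) (fun _ => rfl) (fun _ => rfl) (fun _ => rfl)
    (fun i hi => s_ne hirr hbb hbi hi) (fun i hi => t_ne hirr hbb hbi hi)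
    (by rw [← trace_A hbb hbi, trace_A hsp.1 hsp.2])
    (by rw [← trace_A' hbb hbi, trace_A' hsp.1 hsp.2])
  exact hroot t ht

/-- the answer -/
theorem answer {q : K} (hq : q ≠ 0) (hq1 : ∀ n, 0 < n → q ^ n ≠ 1) (d : ℕ) :
    Q1Holds K q d ↔ (d ≤ 1 ∨ ∀ a b : K, ∃ t, t ^ 2 + a * t + b = 0) := by
  constructor
  · intro h
    by_contra hcon
    push Not at hcon
    obtain ⟨hd, a, b, hab⟩ := hcon
    exact negative hq hq1 (by omega) hab h
  · exact positive hq hq1

end Pool.Agent.Lib.MP_32472a_al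
end
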